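import Mathlib
import Pool.Agent.N757.OC.Mean

/-!
# Functions like the radical: reduction to triples near a cusp, and the bridge
-/

set_option autoImplicit false

namespace Pool.Agent.N757.OH

/-- the functions `Φ` which behave like the radical: if every prime dividing `n` divides `m` and every
prime dividing `m` divides `n w`, then `Φ m ≤ A Φ n w` -/
structure RadLike (Φ : ℕ → ℝ) (A : ℝ) : Prop where
  one_le : 1 ≤ A
  pos : ∀ n : ℕ, n ≠ 0 → 0 < Φ n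
  le : ∀ n m w : ℕ, n ≠ 0 → m ≠ 0 → w ≠ 0 → (∀ p : ℕ, p.Prime → p ∣ n → p ∣ m) →
    (∀ p : ℕ, p.Prime → p ∣ m → p ∣ n * w) → Φ m ≤ A * Φ n * w

/-- the inequality of the abc conjecture for the triples with the property `T` -/
def AbcOn (Φ : ℕ → ℝ) (T : ℕ → ℕ → ℕ → Prop) : Prop :=
  ∀ ε : ℝ, 0 < ε → ∃ κ : ℝ, ∀ a b c : ℕ, 0 < a → 0 < b → Nat.Coprime a b → a + b = c → T a b c →
    (c : ℝ) ≤ κ * Φ (a * b * c) ^ (1 + ε)

def ABC (Φ : ℕ → ℝ) : Prop :=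
  ∀ ε : ℝ, 0 < ε → ∃ κ : ℝ, ∀ a b c : ℕ, 0 < a → 0 < b → Nat.Coprime a b → a + b = c →
    (c : ℝ) ≤ κ * Φ (a * b * c) ^ (1 + ε)

/-- **Transfer along a map of degree `D`.** -/
theorem transfer_abc {Φ : ℕ → ℝ} {A : ℝ} (hΦ : RadLike Φ A) (T : ℕ → ℕ → ℕ → Prop) (D : ℕ)
    (hD : 1 ≤ D) (K : ℝ) (hK : 1 ≤ K)
    (h : AbcOn Φ T)
    (hmap : ∀ a b c : ℕ, 0 < a → 0 < b → Nat.Coprime a b → a + b = c → 2 * a ≤ c →
      ∃ a' b' c' : ℕ, 0 < a' ∧ 0 < b' ∧ Nat.Coprime a' b' ∧ a' + b' = c' ∧ T a' b' c' ∧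
        (c : ℝ) ^ D ≤ K * c' ∧ Φ (a' * b' * c') * c ≤ K * Φ (a * b * c) * (c : ℝ) ^ D) : ABC Φ := by
  have hD0 : (0 : ℝ) < D := by exact_mod_cast hD
  have hD1 : (1 : ℝ) ≤ D := by exact_mod_cast hD
  have hK0 : 0 < K := by linarith
  intro ε hε
  obtain ⟨η, hη⟩ : ∃ η : ℝ, η = ε / ((1 + ε) * D) := ⟨_, rfl⟩
  have hη0 : 0 < η := by rw [hη]; positivity
  have hηD : D * η = ε / (1 + ε) := by rw [hη]; field_simp
  have hη1 : η < 1 := by
    have h1 : ε / (1 + ε) < 1 := by rw [div_lt_one (by linarith)]; linarith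
    have h2 : 1 * η ≤ D * η := mul_le_mul_of_nonneg_right hD1 hη0.le
    linarith
  obtain ⟨ε', hε'⟩ : ∃ ε' : ℝ, ε' = η / (1 - η) := ⟨_, rfl⟩
  have h1η : 0 < 1 - η := by linarith
  have hε'0 : 0 < ε' := by rw [hε']; positivity
  have hε'1 : (1 + ε') * (1 - η) = 1 := by rw [hε']; field_simp; ring
  obtain ⟨κ₀, hκ₀⟩ := h ε' hε'0
  obtain ⟨κ, hκ⟩ : ∃ κ : ℝ, κ = max κ₀ 1 := ⟨_, rfl⟩
  have hκ1 : 1 ≤ κ := by rw [hκ]; exact le_max_right _ _
  have hκ2 : κ₀ ≤ κ := by rw [hκ]; exact le_max_left _ _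
  obtain ⟨L, hL⟩ : ∃ L : ℝ, L = (K * κ) ^ (1 - η) * K := ⟨_, rfl⟩
  have hL0 : 0 < L := by rw [hL]; positivity
  refine ⟨L ^ (1 + ε), ?_⟩
  -- the triples with `2 a ≤ c`
  have main : ∀ a b c : ℕ, 0 < a → 0 < b → Nat.Coprime a b → a + b = c → 2 * a ≤ c →
      (c : ℝ) ≤ L ^ (1 + ε) * Φ (a * b * c) ^ (1 + ε) := by
    intro a b c ha hb hab habc h2a
    obtain ⟨a', b', c', ha', hb', hab', habc', hT, h1, h2⟩ := hmap a b c ha hb hab habc h2a
    have hc : (1 : ℝ) ≤ c := by exact_mod_cast (by omega : 1 ≤ c)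
    have hc0 : (0 : ℝ) < c := by linarith
    have hP : 0 < Φ (a * b * c) := hΦ.pos _ (by
      have : 0 < c := by omega
      positivity)
    have hP' : 0 < Φ (a' * b' * c') := hΦ.pos _ (by
      have : 0 < c' := by omega
      positivity)
    have h3 := hκ₀ a' b' c' ha' hb' hab' habc' hT
    have h4 : (c : ℝ) ^ D ≤ K * κ * Φ (a' * b' * c') ^ (1 + ε') := by
      calc (c : ℝ) ^ D ≤ K * c' := h1
        _ ≤ K * (κ * Φ (a' * b' * c') ^ (1 + ε')) := by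
            apply mul_le_mul_of_nonneg_left _ hK0.le
            exact h3.trans (mul_le_mul_of_nonneg_right hκ2 (Real.rpow_nonneg hP'.le _))
        _ = _ := by ring
    have h5 : ((c : ℝ) ^ D) ^ (1 - η) ≤ (K * κ) ^ (1 - η) * Φ (a' * b' * c') := by
      calc ((c : ℝ) ^ D) ^ (1 - η) ≤ (K * κ * Φ (a' * b' * c') ^ (1 + ε')) ^ (1 - η) :=
            Real.rpow_le_rpow (by positivity) h4 h1η.le
        _ = _ := by
            rw [Real.mul_rpow (by positivity) (Real.rpow_nonneg hP'.le _), ← Real.rpow_mul hP'.le,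
              hε'1, Real.rpow_one]
    have h6 : ((c : ℝ) ^ D) ^ (1 - η) * c ≤ L * (Φ (a * b * c) * (c : ℝ) ^ D) := by
      calc ((c : ℝ) ^ D) ^ (1 - η) * c ≤ (K * κ) ^ (1 - η) * Φ (a' * b' * c') * c :=
            mul_le_mul_of_nonneg_right h5 hc0.le
        _ = (K * κ) ^ (1 - η) * (Φ (a' * b' * c') * c) := by ring
        _ ≤ (K * κ) ^ (1 - η) * (K * Φ (a * b * c) * (c : ℝ) ^ D) :=
            mul_le_mul_of_nonneg_left h2 (by positivity)
        _ = _ := by rw [hL]; ring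
    have h7 : ((c : ℝ) ^ D) ^ (1 - η) * c = (c : ℝ) ^ (1 / (1 + ε)) * (c : ℝ) ^ D := by
      rw [← Real.rpow_natCast (c : ℝ) D, ← Real.rpow_mul hc0.le]
      nth_rewrite 2 [← Real.rpow_one (c : ℝ)]
      rw [← Real.rpow_add hc0, ← Real.rpow_add hc0]
      congr 1
      have : (D : ℝ) * (1 - η) = D - ε / (1 + ε) := by rw [mul_sub, hηD, mul_one]
      rw [this]
      field_simp
      ring
    have h8 : (c : ℝ) ^ (1 / (1 + ε)) ≤ L * Φ (a * b * c) := by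
      rw [h7] at h6
      have h9 : (c : ℝ) ^ (1 / (1 + ε)) * (c : ℝ) ^ D ≤ (L * Φ (a * b * c)) * (c : ℝ) ^ D := by
        linarith
      exact le_of_mul_le_mul_right h9 (by positivity)
    calc (c : ℝ) = ((c : ℝ) ^ (1 / (1 + ε))) ^ (1 + ε) := by
          rw [← Real.rpow_mul hc0.le, one_div_mul_cancel (by linarith), Real.rpow_one]
      _ ≤ (L * Φ (a * b * c)) ^ (1 + ε) := Real.rpow_le_rpow (by positivity) h8 (by linarith)
      _ = _ := by rw [Real.mul_rpow hL0.le hP.le]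
  intro a b c ha hb hab habc
  rcases le_total (2 * a) c with h1 | h1
  · exact main a b c ha hb hab habc h1
  · have := main b a c hb ha hab.symm (by omega) (by omega)
    rwa [mul_comm b a] at this

/-- divisibility by `N` -/
theorem dvd_prod {N n a c : ℕ} (hN : 1 ≤ N) (hn : Nat.totient N ∣ n) (hNn : N ≤ n)
    (hac : a ≤ c) (hcop : Nat.Coprime a c) : N ∣ a ^ n * (c ^ n - a ^ n) * c ^ n := by
  rw [Nat.dvd_iff_prime_pow_dvd_dvd]
  intro p k hp hpk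
  have hk : k ≤ n := by
    have h1 : k < p ^ k := Nat.lt_pow_self hp.one_lt
    have h2 : p ^ k ≤ N := Nat.le_of_dvd hN hpk
    omega
  by_cases hpa : p ∣ a
  · exact ((pow_dvd_pow p hk).trans (pow_dvd_pow_of_dvd hpa n) |>.mul_right _).mul_right _
  by_cases hpc : p ∣ c
  · exact ((pow_dvd_pow p hk).trans (pow_dvd_pow_of_dvd hpc n)).mul_left _
  have h1 : Nat.Coprime a (p ^ k) := ((Nat.Prime.coprime_iff_not_dvd hp).2 hpa).symm.pow_right k
  have h2 : Nat.Coprime c (p ^ k) := ((Nat.Prime.coprime_iff_not_dvd hp).2 hpc).symm.pow_right k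
  have h3 : Nat.totient (p ^ k) ∣ n := (Nat.totient_dvd_of_dvd hpk).trans hn
  obtain ⟨j, hj⟩ := h3
  have h4 : a ^ n ≡ 1 [MOD p ^ k] := by
    rw [hj, pow_mul]
    have := (Nat.ModEq.pow_totient h1).pow j
    rwa [one_pow] at this
  have h5 : c ^ n ≡ 1 [MOD p ^ k] := by
    rw [hj, pow_mul]
    have := (Nat.ModEq.pow_totient h2).pow j
    rwa [one_pow] at this
  have h6 : p ^ k ∣ c ^ n - a ^ n :=
    (Nat.modEq_iff_dvd' (Nat.pow_le_pow_left hac n)).1 (h4.trans h5.symm)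
  exact (h6.mul_left _).mul_right _

end Pool.Agent.N757.OH
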