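import Mathlib
import Pool.Agent.N757.OH.Base

/-!
# Functions like the radical: reduction to triples near a cusp
-/

set_option autoImplicit false

namespace Pool.Agent.N757.OH

theorem exists_geom (a b c n : ℕ) (hab : a + b = c) :
    ∃ S : ℕ, a ^ n + b * S = c ^ n ∧ (S : ℝ) * c ≤ n * (c : ℝ) ^ n := by
  refine ⟨∑ i ∈ Finset.range n, c ^ i * a ^ (n - 1 - i), ?_, ?_⟩
  · have h := (Commute.all (c : ℤ) (a : ℤ)).geom_sum₂_mul n
    have hb : (c : ℤ) - a = b := by rw [← hab]; push_cast; ring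
    rw [hb] at h
    have : ((a ^ n + b * ∑ i ∈ Finset.range n, c ^ i * a ^ (n - 1 - i) : ℕ) : ℤ) = ((c ^ n : ℕ) : ℤ) := by
      push_cast
      linarith
    exact_mod_cast this
  · push_cast
    rw [Finset.sum_mul]
    calc ∑ i ∈ Finset.range n, ((c : ℝ) ^ i * (a : ℝ) ^ (n - 1 - i)) * c ≤
        ∑ i ∈ Finset.range n, (c : ℝ) ^ n := by
          refine Finset.sum_le_sum fun i hi => ?_
          have hi' : i + (n - 1 - i) + 1 = n := by
            have := Finset.mem_range.1 hi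
            omega
          have hac : (a : ℝ) ≤ c := by exact_mod_cast (by omega : a ≤ c)
          calc ((c : ℝ) ^ i * (a : ℝ) ^ (n - 1 - i)) * c ≤
              ((c : ℝ) ^ i * (c : ℝ) ^ (n - 1 - i)) * c := by gcongr
            _ = (c : ℝ) ^ n := by rw [← pow_add, ← pow_succ, hi']
      _ = _ := by rw [Finset.sum_const, Finset.card_range, nsmul_eq_mul]

theorem coprime_of_primes {m n : ℕ} (h : ∀ p : ℕ, p.Prime → p ∣ m → p ∣ n → False) :
    Nat.Coprime m n := by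
  rw [Nat.coprime_iff_gcd_eq_one]
  by_contra hne
  obtain ⟨p, hp, hd⟩ := Nat.exists_prime_and_dvd hne
  exact h p hp (hd.trans (Nat.gcd_dvd_left _ _)) (hd.trans (Nat.gcd_dvd_right _ _))

theorem near {Φ : ℕ → ℝ} {A : ℝ} (hΦ : RadLike Φ A) (N : ℕ) (δ : ℝ) (hN : 1 ≤ N) (hδ : 0 < δ)
    (h : AbcOn Φ fun a _ c => N ∣ a ∧ (a : ℝ) ≤ δ * c) : ABC Φ := by
  obtain ⟨m, hm⟩ : ∃ m : ℕ, (1 / 2 : ℝ) ^ m < δ / 16 :=
    exists_pow_lt_of_lt_one (by positivity) (by norm_num)
  obtain ⟨n, hn⟩ : ∃ n : ℕ, n = Nat.totient N * (N + m + 2) := ⟨_, rfl⟩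
  have htot : 1 ≤ Nat.totient N := Nat.totient_pos.2 hN
  have hn1 : N + m + 2 ≤ n := by rw [hn]; exact Nat.le_mul_of_pos_left _ htot
  have htn : Nat.totient N ∣ n := ⟨_, hn⟩
  have hsmall : 16 * (1 / 2 : ℝ) ^ n ≤ δ := by
    have h1 : (1 / 2 : ℝ) ^ n ≤ (1 / 2 : ℝ) ^ m :=
      pow_le_pow_of_le_one (by norm_num) (by norm_num) (by omega)
    linarith
  have hA := hΦ.one_le
  have hnR : (1 : ℝ) ≤ n := by exact_mod_cast (by omega : 1 ≤ n)
  refine transfer_abc hΦ _ (4 * n) (by omega) (16 + 4 * n * A) (by nlinarith) h ?_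
  intro a b c ha hb hab habc h2a
  obtain ⟨S, hS, hSc⟩ := exists_geom a b c n habc
  obtain ⟨A₀, hA₀⟩ : ∃ A₀ : ℕ, A₀ = a ^ n := ⟨_, rfl⟩
  obtain ⟨C₀, hC₀⟩ : ∃ C₀ : ℕ, C₀ = c ^ n := ⟨_, rfl⟩
  obtain ⟨B₀, hB₀⟩ : ∃ B₀ : ℕ, B₀ = b * S := ⟨_, rfl⟩
  have hABC : A₀ + B₀ = C₀ := by rw [hA₀, hB₀, hC₀]; exact hS
  have hA0 : 0 < A₀ := by rw [hA₀]; positivity
  have hpow : 2 ^ n * A₀ ≤ C₀ := by
    rw [hA₀, hC₀, ← mul_pow]
    exact Nat.pow_le_pow_left h2a n
  have h4 : 4 * A₀ ≤ C₀ := by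
    have h5 : 2 ^ 2 ≤ 2 ^ n := Nat.pow_le_pow_right (by norm_num) (by omega)
    exact (Nat.mul_le_mul_right A₀ h5).trans hpow
  obtain ⟨U, hU⟩ : ∃ U : ℕ, B₀ = A₀ + U := ⟨B₀ - A₀, by omega⟩
  have hU0 : 0 < U := by omega
  have hB0 : 0 < B₀ := by omega
  have hC0 : 0 < C₀ := by omega
  have hCU : C₀ = 2 * A₀ + U := by omega
  obtain ⟨V, hV⟩ : ∃ V : ℕ, V = C₀ ^ 2 + 4 * A₀ * B₀ := ⟨_, rfl⟩
  have hid : 16 * A₀ * B₀ * C₀ ^ 2 + U ^ 4 = V ^ 2 := by rw [hV, hU, hCU]; ring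
  have hND : N ∣ A₀ * B₀ * C₀ := by
    have h5 := dvd_prod hN htn (by omega) (by omega : a ≤ c) (by
      rw [← habc]; simpa using hab : Nat.Coprime a c)
    have h6 : c ^ n - a ^ n = B₀ := by rw [← hA₀, ← hC₀]; omega
    rwa [h6, ← hA₀, ← hC₀] at h5
  have hSpos : 0 < S := by
    rcases Nat.eq_zero_or_pos S with h5 | h5
    · rw [h5, mul_zero] at hB₀; omega
    · exact h5
  have hV0 : 0 < V := by rw [hV]; positivity
  have hc0 : 0 < c := by omega
  have habc0 : a * b * c ≠ 0 := by positivity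
  obtain ⟨w, hw⟩ : ∃ w : ℕ, w = 2 * S * U * V := ⟨_, rfl⟩
  have hw0 : w ≠ 0 := by rw [hw]; positivity
  -- coprimality facts
  have hac : Nat.Coprime a c := by rw [← habc]; simpa using hab
  have hACp : ∀ p : ℕ, p.Prime → p ∣ A₀ → p ∣ C₀ → False := by
    intro p hp h5 h6
    rw [hA₀] at h5
    rw [hC₀] at h6
    have h7 := hp.dvd_of_dvd_pow h5
    have h8 := hp.dvd_of_dvd_pow h6
    have h9 := Nat.dvd_gcd h7 h8
    rw [hac] at h9
    exact hp.one_lt.ne' (Nat.dvd_one.1 h9)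
  have hBAp : ∀ p : ℕ, p.Prime → p ∣ B₀ → p ∣ A₀ → False := fun p hp h5 h6 =>
    hACp p hp h6 (by rw [← hABC]; exact dvd_add h6 h5)
  have hBCp : ∀ p : ℕ, p.Prime → p ∣ B₀ → p ∣ C₀ → False := fun p hp h5 h6 =>
    hACp p hp ((Nat.dvd_add_left h5).1 (by rw [hABC]; exact h6)) h6
  -- real estimates
  have eA : (A₀ : ℝ) ≤ (1 / 2) ^ n * C₀ := by
    have h5 : (2 : ℝ) ^ n * A₀ ≤ C₀ := by exact_mod_cast hpow
    rw [one_div, inv_pow, inv_mul_eq_div, le_div_iff₀ (by positivity)]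
    linarith
  have eC : (C₀ : ℝ) = (c : ℝ) ^ n := by rw [hC₀]; push_cast; rfl
  have eV : (C₀ : ℝ) ^ 2 ≤ V := by rw [hV]; push_cast; nlinarith [mul_nonneg (Nat.cast_nonneg A₀ : (0 : ℝ) ≤ A₀) (Nat.cast_nonneg B₀)]
  have eV2 : (V : ℝ) ≤ 2 * (C₀ : ℝ) ^ 2 := by
    have h5 : (C₀ : ℝ) = A₀ + B₀ := by exact_mod_cast hABC.symm
    rw [hV]; push_cast; rw [h5]; nlinarith [sq_nonneg ((A₀ : ℝ) - B₀)]
  have eU : (U : ℝ) ≤ C₀ := by exact_mod_cast (by omega : U ≤ C₀)
  have hcR : (0 : ℝ) < c := by exact_mod_cast hc0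
  have hCR : (0 : ℝ) < C₀ := by exact_mod_cast hC0
  have ewc : (w : ℝ) * c ≤ 4 * n * (c : ℝ) ^ (4 * n) := by
    calc (w : ℝ) * c = 2 * (S * c) * U * V := by rw [hw]; push_cast; ring
      _ ≤ 2 * (n * (c : ℝ) ^ n) * C₀ * (2 * (C₀ : ℝ) ^ 2) := by gcongr
      _ = 4 * n * (c : ℝ) ^ (4 * n) := by
          rw [eC, show 4 * n = n + n + n + n by ring, pow_add, pow_add, pow_add]; ring
  have hPhi : ∀ m : ℕ, m ≠ 0 → (∀ p : ℕ, p.Prime → p ∣ a * b * c → p ∣ m) →
      (∀ p : ℕ, p.Prime → p ∣ m → p ∣ a * b * c * w) →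
      Φ m * c ≤ (16 + 4 * n * A) * Φ (a * b * c) * (c : ℝ) ^ (4 * n) := by
    intro m hm0 h5 h6
    have h7 := hΦ.le (a * b * c) m w habc0 hm0 hw0 h5 h6
    have hP := hΦ.pos (a * b * c) habc0
    calc Φ m * c ≤ (A * Φ (a * b * c) * w) * c := mul_le_mul_of_nonneg_right h7 hcR.le
      _ = A * Φ (a * b * c) * (w * c) := by ring
      _ ≤ A * Φ (a * b * c) * (4 * n * (c : ℝ) ^ (4 * n)) :=
          mul_le_mul_of_nonneg_left ewc (by positivity)
      _ = (4 * n * A) * Φ (a * b * c) * (c : ℝ) ^ (4 * n) := by ring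
      _ ≤ _ := by gcongr; linarith
  have hKn : (0 : ℝ) ≤ 4 * n * A := by positivity
  rcases Nat.even_or_odd c with hce | hco
  · -- `c` even
    have h5 : 4 ∣ C₀ := by
      rw [hC₀]
      have : 2 ^ 2 ∣ c ^ n := (pow_dvd_pow_of_dvd hce.two_dvd 2).trans (pow_dvd_pow c (by omega))
      simpa using this
    obtain ⟨C₁, hC₁⟩ := h5
    have hAodd : ¬ 2 ∣ A₀ := fun h6 => hACp 2 Nat.prime_two h6 (by rw [hC₁]; exact ⟨2 * C₁, by ring⟩)
    obtain ⟨U₁, hU₁⟩ : ∃ U₁, A₀ + U₁ = 2 * C₁ := ⟨2 * C₁ - A₀, by omega⟩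
    have hUU : U = 2 * U₁ := by omega
    obtain ⟨V₁, hV₁⟩ : ∃ V₁, V₁ = 4 * C₁ ^ 2 + A₀ * B₀ := ⟨_, rfl⟩
    have hVV : V = 4 * V₁ := by rw [hV, hV₁, hC₁]; ring
    have hU10 : 0 < U₁ := by omega
    have hV10 : 0 < V₁ := by omega
    have hid1 : A₀ * B₀ * C₀ ^ 2 + U₁ ^ 4 = V₁ ^ 2 := by
      have h6 : 16 * (A₀ * B₀ * C₀ ^ 2 + U₁ ^ 4) = 16 * V₁ ^ 2 := by
        rw [hUU, hVV] at hid
        linarith
      exact Nat.eq_of_mul_eq_mul_left (by norm_num) h6
    have eV1 : (C₀ : ℝ) ^ 2 ≤ 4 * V₁ := by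
      have : (V : ℝ) = 4 * V₁ := by rw [hVV]; push_cast; ring
      rw [← this]; exact eV
    refine ⟨A₀ * B₀ * C₀ ^ 2, U₁ ^ 4, V₁ ^ 2, by positivity, by positivity, ?_, hid1, ⟨?_, ?_⟩, ?_, ?_⟩
    · refine coprime_of_primes fun p hp h6 h7 => ?_
      have h7 := hp.dvd_of_dvd_pow h7
      have hUA : p ∣ A₀ → p ∣ C₀ := fun h8 => by
        have : p ∣ 2 * C₁ := by rw [← hU₁]; exact dvd_add h8 h7
        rw [hC₁, show 4 * C₁ = 2 * C₁ * 2 by ring]; exact this.mul_right _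
      rcases hp.dvd_mul.1 h6 with h8 | h8
      · rcases hp.dvd_mul.1 h8 with h9 | h9
        · exact hACp p hp h9 (hUA h9)
        · -- `p ∣ B₀`
          have h10 : p ∣ U := by rw [hUU]; exact h7.mul_left 2
          exact hBAp p hp h9 ((Nat.dvd_add_left h10).1 (by rw [← hU]; exact h9))
      · have h9 := hp.dvd_of_dvd_pow h8
        have h10 : p ∣ U := by rw [hUU]; exact h7.mul_left 2
        have h11 : p ∣ 2 * A₀ := (Nat.dvd_add_left h10).1 (by rw [← hCU]; exact h9)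
        rcases hp.dvd_mul.1 h11 with h12 | h12
        · have hp2 : p = 2 := (Nat.prime_dvd_prime_iff_eq hp Nat.prime_two).1 h12
          rw [hp2] at h7
          exact hAodd ((Nat.dvd_add_left h7).1 (by rw [hU₁]; exact ⟨C₁, rfl⟩))
        · exact hACp p hp h12 h9
    · rw [pow_two, ← mul_assoc]
      exact hND.mul_right _
    · push_cast
      have h6 : (B₀ : ℝ) ≤ C₀ := by exact_mod_cast (by omega : B₀ ≤ C₀)
      calc (A₀ : ℝ) * B₀ * C₀ ^ 2 ≤ ((1 / 2) ^ n * C₀) * C₀ * C₀ ^ 2 := by gcongr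
        _ = (1 / 2) ^ n * ((C₀ : ℝ) ^ 2) ^ 2 := by ring
        _ ≤ (1 / 2) ^ n * (4 * V₁) ^ 2 := by gcongr
        _ = (16 * (1 / 2) ^ n) * (V₁ : ℝ) ^ 2 := by ring
        _ ≤ δ * (V₁ : ℝ) ^ 2 := by gcongr
    · push_cast
      calc (c : ℝ) ^ (4 * n) = ((C₀ : ℝ) ^ 2) ^ 2 := by
            rw [eC, ← pow_mul, ← pow_mul]; congr 1; ring
        _ ≤ (4 * (V₁ : ℝ)) ^ 2 := by gcongr
        _ = 16 * (V₁ : ℝ) ^ 2 := by ring
        _ ≤ _ := by gcongr; linarith
    · refine hPhi _ (by positivity) (fun p hp h6 => ?_) (fun p hp h6 => ?_)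
      · rcases hp.dvd_mul.1 h6 with h7 | h7
        · rcases hp.dvd_mul.1 h7 with h8 | h8
          · have : p ∣ A₀ := by rw [hA₀]; exact h8.trans (dvd_pow_self a (by omega))
            exact (((this.mul_right _).mul_right _).mul_right _).mul_right _
          · have : p ∣ B₀ := by rw [hB₀]; exact h8.mul_right _
            exact (((this.mul_left _).mul_right _).mul_right _).mul_right _
        · have : p ∣ C₀ ^ 2 := by
            rw [hC₀]; exact (h7.trans (dvd_pow_self c (by omega))).trans (dvd_pow_self _ (by norm_num))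
          exact ((this.mul_left _).mul_right _).mul_right _
      · rw [hw]
        rcases hp.dvd_mul.1 h6 with h7 | h7
        · rcases hp.dvd_mul.1 h7 with h8 | h8
          · rcases hp.dvd_mul.1 h8 with h9 | h9
            · rcases hp.dvd_mul.1 h9 with h10 | h10
              · rw [hA₀] at h10
                exact (((hp.dvd_of_dvd_pow h10).mul_right _).mul_right _).mul_right _
              · rw [hB₀] at h10
                rcases hp.dvd_mul.1 h10 with h11 | h11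
                · exact ((h11.mul_left _).mul_right _).mul_right _
                · exact (((h11.mul_left _).mul_right _).mul_right _).mul_left _
            · have h10 := hp.dvd_of_dvd_pow h9
              rw [hC₀] at h10
              exact ((hp.dvd_of_dvd_pow h10).mul_left _).mul_right _
          · have h9 := hp.dvd_of_dvd_pow h8
            have : p ∣ U := by rw [hUU]; exact h9.mul_left 2
            exact ((this.mul_left _).mul_right _).mul_left _
        · have h9 := hp.dvd_of_dvd_pow h7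
          have : p ∣ V := by rw [hVV]; exact h9.mul_left 4
          exact (this.mul_left _).mul_left _
  · -- `c` odd
    have hCodd : ¬ 2 ∣ C₀ := by
      intro h6
      rw [hC₀] at h6
      have h7 := Nat.prime_two.dvd_of_dvd_pow h6
      exact (Nat.not_even_iff_odd.2 hco) (even_iff_two_dvd.2 h7)
    refine ⟨16 * A₀ * B₀ * C₀ ^ 2, U ^ 4, V ^ 2, by positivity, by positivity, ?_, hid, ⟨?_, ?_⟩, ?_, ?_⟩
    · refine coprime_of_primes fun p hp h6 h7 => ?_
      have h7 := hp.dvd_of_dvd_pow h7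
      have h2 : ¬ p ∣ 2 := fun h8 => by
        have hp2 : p = 2 := (Nat.prime_dvd_prime_iff_eq hp Nat.prime_two).1 h8
        rw [hp2] at h7
        exact hCodd (by rw [hCU]; exact dvd_add ⟨A₀, rfl⟩ h7)
      rcases hp.dvd_mul.1 h6 with h8 | h8
      · rcases hp.dvd_mul.1 h8 with h9 | h9
        · rcases hp.dvd_mul.1 h9 with h10 | h10
          · exact h2 (hp.dvd_of_dvd_pow (by simpa using h10 : p ∣ 2 ^ 4))
          · exact hACp p hp h10 (by rw [hCU]; exact dvd_add (h10.mul_left 2) h7)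
        · exact hBAp p hp h9 ((Nat.dvd_add_left h7).1 (by rw [← hU]; exact h9))
      · have h9 := hp.dvd_of_dvd_pow h8
        have h11 : p ∣ 2 * A₀ := (Nat.dvd_add_left h7).1 (by rw [← hCU]; exact h9)
        rcases hp.dvd_mul.1 h11 with h12 | h12
        · exact h2 h12
        · exact hACp p hp h12 h9
    · have : 16 * A₀ * B₀ * C₀ ^ 2 = (A₀ * B₀ * C₀) * (16 * C₀) := by ring
      rw [this]
      exact hND.mul_right _
    · push_cast
      have h6 : (B₀ : ℝ) ≤ C₀ := by exact_mod_cast (by omega : B₀ ≤ C₀)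
      calc 16 * (A₀ : ℝ) * B₀ * C₀ ^ 2 ≤ 16 * ((1 / 2) ^ n * C₀) * C₀ * C₀ ^ 2 := by gcongr
        _ = 16 * (1 / 2) ^ n * ((C₀ : ℝ) ^ 2) ^ 2 := by ring
        _ ≤ 16 * (1 / 2) ^ n * (V : ℝ) ^ 2 := by gcongr
        _ ≤ δ * (V : ℝ) ^ 2 := by gcongr
    · push_cast
      calc (c : ℝ) ^ (4 * n) = ((C₀ : ℝ) ^ 2) ^ 2 := by
            rw [eC, ← pow_mul, ← pow_mul]; congr 1; ring
        _ ≤ (V : ℝ) ^ 2 := by gcongr
        _ = 1 * (V : ℝ) ^ 2 := by ring
        _ ≤ _ := by gcongr; linarith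
    · refine hPhi _ (by positivity) (fun p hp h6 => ?_) (fun p hp h6 => ?_)
      · rcases hp.dvd_mul.1 h6 with h7 | h7
        · rcases hp.dvd_mul.1 h7 with h8 | h8
          · have : p ∣ A₀ := by rw [hA₀]; exact h8.trans (dvd_pow_self a (by omega))
            exact ((((this.mul_left 16).mul_right _).mul_right _).mul_right _).mul_right _
          · have : p ∣ B₀ := by rw [hB₀]; exact h8.mul_right _
            exact (((this.mul_left _).mul_right _).mul_right _).mul_right _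
        · have : p ∣ C₀ ^ 2 := by
            rw [hC₀]; exact (h7.trans (dvd_pow_self c (by omega))).trans (dvd_pow_self _ (by norm_num))
          exact ((this.mul_left _).mul_right _).mul_right _
      · rw [hw]
        rcases hp.dvd_mul.1 h6 with h7 | h7
        · rcases hp.dvd_mul.1 h7 with h8 | h8
          · rcases hp.dvd_mul.1 h8 with h9 | h9
            · rcases hp.dvd_mul.1 h9 with h10 | h10
              · rcases hp.dvd_mul.1 h10 with h11 | h11
                · have h12 := hp.dvd_of_dvd_pow (by simpa using h11 : p ∣ 2 ^ 4)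
                  exact (((h12.mul_right _).mul_right _).mul_right _).mul_left _
                · rw [hA₀] at h11
                  exact (((hp.dvd_of_dvd_pow h11).mul_right _).mul_right _).mul_right _
              · rw [hB₀] at h10
                rcases hp.dvd_mul.1 h10 with h11 | h11
                · exact ((h11.mul_left _).mul_right _).mul_right _
                · exact (((h11.mul_left _).mul_right _).mul_right _).mul_left _
            · have h10 := hp.dvd_of_dvd_pow h9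
              rw [hC₀] at h10
              exact ((hp.dvd_of_dvd_pow h10).mul_left _).mul_right _
          · exact (((hp.dvd_of_dvd_pow h8).mul_left _).mul_right _).mul_left _
        · exact ((hp.dvd_of_dvd_pow h7).mul_left _).mul_left _

end Pool.Agent.N757.OH
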