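import Mathlib
import Pool.Agent.N757.OH.Near
import Pool.Agent.N757.OC.Fwd

/-!
# Functions like the radical: the bridge, and consequences of the abc conjecture
-/

set_option autoImplicit false

namespace Pool.Agent.N757.OH

open Pool.Agent.N757.OC (natAbs_coprime le_rpow_inv abs_eq_one_of)

/-- the inequality `Φ (x ^ p - y ^ q) ≥ κ M ^ (1 - 1/p - 1/q - ε)`, where `M = max (|x| ^ p, |y| ^ q)`,
for all coprime integers `x`, `y` with `x ^ p ≠ y ^ q`, `N ∣ x ^ p - y ^ q` and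
`|x ^ p - y ^ q| ≤ δ M` -/
def OneCusp (Φ : ℕ → ℝ) (p q N : ℕ) (δ : ℝ) : Prop :=
  ∀ ε : ℝ, 0 < ε → ∃ κ : ℝ, 0 < κ ∧ ∀ x y : ℤ, IsCoprime x y → x ^ p ≠ y ^ q →
    (N : ℤ) ∣ x ^ p - y ^ q →
    |(x : ℝ) ^ p - (y : ℝ) ^ q| ≤ δ * max (|(x : ℝ)| ^ p) (|(y : ℝ)| ^ q) →
    κ * (max (|(x : ℝ)| ^ p) (|(y : ℝ)| ^ q)) ^ (1 - 1 / (p : ℝ) - 1 / (q : ℝ) - ε) ≤
      Φ (x ^ p - y ^ q).natAbs

/-- the inequality `Φ (u v) ≥ κ M ^ (1 - 1/n - ε)`, where `M = max (|u|, |v|)`, for all coprime nonzero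
integers `u`, `v` whose sum is an `n`-th power, with `N ∣ u` and `|u| ≤ δ |v|` -/
def TwoCusps (Φ : ℕ → ℝ) (n N : ℕ) (δ : ℝ) : Prop :=
  ∀ ε : ℝ, 0 < ε → ∃ κ : ℝ, 0 < κ ∧ ∀ u v x : ℤ, IsCoprime u v → u ≠ 0 → v ≠ 0 → u + v = x ^ n →
    (N : ℤ) ∣ u → |(u : ℝ)| ≤ δ * |(v : ℝ)| →
    κ * (max |(u : ℝ)| |(v : ℝ)|) ^ (1 - 1 / (n : ℝ) - ε) ≤ Φ (u * v).natAbs

/-- **The bridge.** -/
theorem bridge {Φ : ℕ → ℝ} {A : ℝ} (hΦ : RadLike Φ A) (N : ℕ) (δ : ℝ) (hN : 1 ≤ N) (hδ : 0 < δ) (θ : ℝ) (d e : ℕ) (hd : 1 ≤ d)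
    (hde : (d : ℝ) * θ = 1 + e) (K : ℝ) (hK : 1 ≤ K)
    (h : ∀ ε : ℝ, 0 < ε → ∃ κ : ℝ, 0 < κ ∧ ∀ a b c : ℕ, 0 < a → 0 < b → Nat.Coprime a b → a + b = c →
      N ∣ a → (a : ℝ) ≤ δ * c → ∃ M : ℝ, ∃ r : ℝ, (c : ℝ) ^ d ≤ K * M ∧ κ * M ^ (θ - ε) ≤ r ∧
        r ≤ K * Φ (a * b * c) * (c : ℝ) ^ e) : ABC Φ := by
  refine near hΦ N δ hN hδ fun ε hε => ?_
  have hd0 : (0 : ℝ) < d := by exact_mod_cast hd
  set ε' : ℝ := ε / ((1 + ε) * d) with hε'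
  have hε'0 : 0 < ε' := by positivity
  have hdε : (d : ℝ) * ε' = ε / (1 + ε) := by
    rw [hε']; field_simp
  have hθε : 0 ≤ θ - ε' := by
    have h1 : (d : ℝ) * (θ - ε') = 1 + e - ε / (1 + ε) := by
      rw [mul_sub, hde, hdε]
    have h2 : ε / (1 + ε) ≤ 1 := by
      rw [div_le_one (by linarith)]; linarith
    have h3 : (0 : ℝ) ≤ e := Nat.cast_nonneg e
    have h4 : 0 ≤ (d : ℝ) * (θ - ε') := by rw [h1]; linarith
    exact nonneg_of_mul_nonneg_right h4 hd0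
  obtain ⟨κ, hκ0, hκ⟩ := h ε' hε'0
  set κ₁ : ℝ := K ^ (θ - ε') * K / κ with hκ₁
  have hK0 : 0 < K := by linarith
  have hκ₁0 : 0 < κ₁ := by positivity
  refine ⟨κ₁ ^ (1 + ε), ?_⟩
  intro a b c ha hb hab habc hT
  obtain ⟨M, r, h1, h2, h3⟩ := hκ a b c ha hb hab habc hT.1 hT.2
  have hc : (1 : ℝ) ≤ c := by
    have : 1 ≤ c := by omega
    exact_mod_cast this
  have hc0 : (0 : ℝ) < c := by linarith
  have hR : 0 < Φ (a * b * c) := hΦ.pos _ (by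
    have : 0 < c := by omega
    positivity)
  have h4 : (c : ℝ) ^ d / K ≤ M := by
    rw [div_le_iff₀ hK0]; linarith
  have h5 : ((c : ℝ) ^ d / K) ^ (θ - ε') ≤ M ^ (θ - ε') :=
    Real.rpow_le_rpow (by positivity) h4 hθε
  have h6 : ((c : ℝ) ^ d / K) ^ (θ - ε') = (c : ℝ) ^ (1 + (e : ℝ) - ε / (1 + ε)) / K ^ (θ - ε') := by
    rw [Real.div_rpow (by positivity) hK0.le, ← Real.rpow_natCast, ← Real.rpow_mul hc0.le, mul_sub,
      hde, hdε]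
  have h7 : (c : ℝ) ^ (1 + (e : ℝ) - ε / (1 + ε)) = (c : ℝ) ^ (1 / (1 + ε)) * (c : ℝ) ^ e := by
    rw [← Real.rpow_natCast (c : ℝ) e, ← Real.rpow_add hc0]
    congr 1
    field_simp
    ring
  have h8 : κ * ((c : ℝ) ^ (1 / (1 + ε)) * (c : ℝ) ^ e / K ^ (θ - ε')) ≤
      K * Φ (a * b * c) * (c : ℝ) ^ e := by
    rw [← h7, ← h6]
    calc κ * ((c : ℝ) ^ d / K) ^ (θ - ε') ≤ κ * M ^ (θ - ε') :=
          mul_le_mul_of_nonneg_left h5 hκ0.le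
      _ ≤ r := h2
      _ ≤ _ := h3
  have hKp : 0 < K ^ (θ - ε') := Real.rpow_pos_of_pos hK0 _
  have hce : (0 : ℝ) < (c : ℝ) ^ e := by positivity
  have h9 : (c : ℝ) ^ (1 / (1 + ε)) ≤ κ₁ * Φ (a * b * c) := by
    rw [hκ₁]
    have h10 : (c : ℝ) ^ (1 / (1 + ε)) * (κ * (c : ℝ) ^ e / K ^ (θ - ε')) ≤
        (K ^ (θ - ε') * K / κ * Φ (a * b * c)) * (κ * (c : ℝ) ^ e / K ^ (θ - ε')) := by
      calc (c : ℝ) ^ (1 / (1 + ε)) * (κ * (c : ℝ) ^ e / K ^ (θ - ε')) =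
          κ * ((c : ℝ) ^ (1 / (1 + ε)) * (c : ℝ) ^ e / K ^ (θ - ε')) := by ring
        _ ≤ K * Φ (a * b * c) * (c : ℝ) ^ e := h8
        _ = _ := by field_simp
    exact le_of_mul_le_mul_right h10 (by positivity)
  calc (c : ℝ) = ((c : ℝ) ^ (1 / (1 + ε))) ^ (1 + ε) := by
        rw [← Real.rpow_mul hc0.le, one_div_mul_cancel (by linarith), Real.rpow_one]
    _ ≤ (κ₁ * Φ (a * b * c)) ^ (1 + ε) :=
        Real.rpow_le_rpow (by positivity) h9 (by linarith)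
    _ = κ₁ ^ (1 + ε) * Φ (a * b * c) ^ (1 + ε) := by
        rw [Real.mul_rpow hκ₁0.le hR.le]

theorem fwd {Φ : ℕ → ℝ} {A : ℝ} (hΦ : RadLike Φ A) (h : ABC Φ) {ε : ℝ} (hε : 0 < ε) : ∃ κ : ℝ, 0 < κ ∧ κ ≤ 1 ∧ ∀ u v w : ℤ, u ≠ 0 → v ≠ 0 → w ≠ 0 →
    IsCoprime u v → u + v = w → ∀ M : ℝ, 1 ≤ M → (M ≤ |(u : ℝ)| ∨ M ≤ |(v : ℝ)| ∨ M ≤ |(w : ℝ)|) →
    κ * M ^ (1 - ε) ≤ Φ (u * v * w).natAbs := by
  obtain ⟨κ₀, hκ₀⟩ := h ε hε
  set κ₁ : ℝ := max κ₀ 1 with hκ₁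
  have hκ₁1 : 1 ≤ κ₁ := le_max_right _ _
  have key : ∀ a b c : ℕ, 0 < a → 0 < b → Nat.Coprime a b → a + b = c → ∀ M : ℝ, 1 ≤ M → M ≤ c →
      κ₁⁻¹ * M ^ (1 - ε) ≤ Φ (a * b * c) := by
    intro a b c ha hb hab habc M hM hMc
    have h1 := hκ₀ a b c ha hb hab habc
    have hR : 0 < Φ (a * b * c) := hΦ.pos _ (by
      have : 0 < c := by omega
      positivity)
    have h2 : M ≤ κ₁ * Φ (a * b * c) ^ (1 + ε) := by
      refine hMc.trans (h1.trans (mul_le_mul_of_nonneg_right (le_max_left _ _) ?_))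
      exact Real.rpow_nonneg hR.le _
    have h3 : M ^ (1 / (1 + ε)) ≤ κ₁ * Φ (a * b * c) := by
      calc M ^ (1 / (1 + ε)) ≤ (κ₁ * Φ (a * b * c) ^ (1 + ε)) ^ (1 / (1 + ε)) :=
            Real.rpow_le_rpow (by linarith) h2 (by positivity)
        _ = κ₁ ^ (1 / (1 + ε)) * Φ (a * b * c) := by
            rw [Real.mul_rpow (by linarith) (Real.rpow_nonneg hR.le _), ← Real.rpow_mul hR.le,
              mul_one_div_cancel (by linarith), Real.rpow_one]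
        _ ≤ κ₁ ^ (1 : ℝ) * Φ (a * b * c) := by
            apply mul_le_mul_of_nonneg_right _ (by linarith)
            apply Real.rpow_le_rpow_of_exponent_le hκ₁1
            rw [div_le_one (by linarith)]; linarith
        _ = _ := by rw [Real.rpow_one]
    have h4 : M ^ (1 - ε) ≤ M ^ (1 / (1 + ε)) := by
      apply Real.rpow_le_rpow_of_exponent_le hM
      rw [le_div_iff₀ (by linarith)]
      nlinarith [sq_nonneg ε]
    rw [inv_mul_le_iff₀ (by linarith)]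
    linarith
  refine ⟨κ₁⁻¹, by positivity, inv_le_one_of_one_le₀ hκ₁1, ?_⟩
  intro u v w hu hv hw huv huvw M hM hMM
  have hu0 : 0 < u.natAbs := Int.natAbs_pos.2 hu
  have hv0 : 0 < v.natAbs := Int.natAbs_pos.2 hv
  have hw0 : 0 < w.natAbs := Int.natAbs_pos.2 hw
  have hvw : IsCoprime v w := by
    rw [← huvw]
    have := huv.symm.add_mul_left_right 1
    rwa [mul_one] at this
  have huw : IsCoprime u w := by
    rw [← huvw]
    have := huv.add_mul_left_right 1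
    rw [mul_one, add_comm] at this
    exact this
  have c1 := natAbs_coprime huv
  have c2 := natAbs_coprime hvw
  have c3 := natAbs_coprime huw
  have e1 : |(u : ℝ)| = (u.natAbs : ℝ) := by rw [Nat.cast_natAbs, Int.cast_abs]
  have e2 : |(v : ℝ)| = (v.natAbs : ℝ) := by rw [Nat.cast_natAbs, Int.cast_abs]
  have e3 : |(w : ℝ)| = (w.natAbs : ℝ) := by rw [Nat.cast_natAbs, Int.cast_abs]
  rw [e1, e2, e3] at hMM
  have hprod : (u * v * w).natAbs = u.natAbs * v.natAbs * w.natAbs := by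
    rw [Int.natAbs_mul, Int.natAbs_mul]
  rw [hprod]
  rcases (by omega : u.natAbs + v.natAbs = w.natAbs ∨ v.natAbs + w.natAbs = u.natAbs ∨
      u.natAbs + w.natAbs = v.natAbs) with h1 | h1 | h1
  · have hle : M ≤ w.natAbs := by
      have h2 : (u.natAbs : ℝ) ≤ w.natAbs := by exact_mod_cast (by omega : u.natAbs ≤ w.natAbs)
      have h3 : (v.natAbs : ℝ) ≤ w.natAbs := by exact_mod_cast (by omega : v.natAbs ≤ w.natAbs)
      rcases hMM with h | h | h <;> linarith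
    exact key _ _ _ hu0 hv0 c1 h1 M hM hle
  · have hle : M ≤ u.natAbs := by
      have h2 : (w.natAbs : ℝ) ≤ u.natAbs := by exact_mod_cast (by omega : w.natAbs ≤ u.natAbs)
      have h3 : (v.natAbs : ℝ) ≤ u.natAbs := by exact_mod_cast (by omega : v.natAbs ≤ u.natAbs)
      rcases hMM with h | h | h <;> linarith
    have := key _ _ _ hv0 hw0 c2 h1 M hM hle
    rwa [show v.natAbs * w.natAbs * u.natAbs = u.natAbs * v.natAbs * w.natAbs by ring] at this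
  · have hle : M ≤ v.natAbs := by
      have h2 : (w.natAbs : ℝ) ≤ v.natAbs := by exact_mod_cast (by omega : w.natAbs ≤ v.natAbs)
      have h3 : (u.natAbs : ℝ) ≤ v.natAbs := by exact_mod_cast (by omega : u.natAbs ≤ v.natAbs)
      rcases hMM with h | h | h <;> linarith
    have := key _ _ _ hu0 hw0 c3 h1 M hM hle
    rwa [show u.natAbs * w.natAbs * v.natAbs = u.natAbs * v.natAbs * w.natAbs by ring] at this

end Pool.Agent.N757.OH
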