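import Mathlib
import Pool.Agent.N757.OH.Bridge

/-!
# Functions like the radical: consequences of the abc conjecture; multiples of signatures
-/

set_option autoImplicit false

namespace Pool.Agent.N757.OH

open Pool.Agent.N757.OC (natAbs_coprime le_rpow_inv abs_eq_one_of)

/-- the rule in terms of integers -/
theorem phi_bound {Φ : ℕ → ℝ} {A : ℝ} (hΦ : RadLike Φ A) {F E w : ℤ} (hF : F ≠ 0) (hE : E ≠ 0)
    (hw : w ≠ 0) (h1 : ∀ p : ℤ, Prime p → p ∣ F → p ∣ E) (h2 : ∀ p : ℤ, Prime p → p ∣ E → p ∣ F * w) :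
    Φ E.natAbs ≤ A * Φ F.natAbs * |(w : ℝ)| := by
  have e6 : (w.natAbs : ℝ) = |(w : ℝ)| := by rw [Nat.cast_natAbs, Int.cast_abs]
  rw [← e6]
  refine hΦ.le _ _ _ (Int.natAbs_ne_zero.2 hF) (Int.natAbs_ne_zero.2 hE) (Int.natAbs_ne_zero.2 hw) ?_ ?_
  · intro p hp h
    exact Int.natCast_dvd.1 (h1 p (Nat.prime_iff_prime_int.1 hp) (Int.natCast_dvd.2 h))
  · intro p hp h
    rw [← Int.natAbs_mul]
    exact Int.natCast_dvd.1 (h2 p (Nat.prime_iff_prime_int.1 hp) (Int.natCast_dvd.2 h))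

theorem abc_oneCusp {Φ : ℕ → ℝ} {A : ℝ} (hΦ : RadLike Φ A) (h : ABC Φ) (p q N : ℕ) (hp : 1 ≤ p)
    (hq : 1 ≤ q) (δ : ℝ) : OneCusp Φ p q N δ := by
  intro ε hε
  obtain ⟨κ, hκ0, hκ1, hκ⟩ := fwd hΦ h hε
  have hA := hΦ.one_le
  have hA0 : 0 < A := by linarith
  have hP1 := hΦ.pos 1 one_ne_zero
  refine ⟨min (κ / A) (Φ 1), lt_min (by positivity) hP1, ?_⟩
  intro x y hxy hne _ _
  obtain ⟨M, hM⟩ : ∃ M : ℝ, M = max (|(x : ℝ)| ^ p) (|(y : ℝ)| ^ q) := ⟨_, rfl⟩
  rw [← hM]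
  obtain ⟨F, hF⟩ : ∃ F : ℤ, F = x ^ p - y ^ q := ⟨_, rfl⟩
  rw [← hF]
  have hF0 : F ≠ 0 := by rw [hF]; exact sub_ne_zero.2 hne
  by_cases hx0 : x = 0
  · have hy1 : |y| = 1 := by
      rw [hx0, isCoprime_zero_left] at hxy
      exact Int.isUnit_iff_abs_eq.1 hxy
    have hM1 : M = 1 := by
      have : |(y : ℝ)| = 1 := by exact_mod_cast hy1
      rw [hM, this, hx0]
      simp [zero_pow (show p ≠ 0 by omega)]
    have hF1 : F.natAbs = 1 := by
      have h5 : |F| = 1 := by rw [hF, hx0, zero_pow (by omega), zero_sub, abs_neg, abs_pow, hy1, one_pow]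
      have h6 : (F.natAbs : ℤ) = 1 := by rw [Int.natCast_natAbs]; exact h5
      exact_mod_cast h6
    rw [hM1, Real.one_rpow, mul_one, hF1]
    exact min_le_right _ _
  by_cases hy0 : y = 0
  · have hx1 : |x| = 1 := by
      rw [hy0, isCoprime_zero_right] at hxy
      exact Int.isUnit_iff_abs_eq.1 hxy
    have hM1 : M = 1 := by
      have : |(x : ℝ)| = 1 := by exact_mod_cast hx1
      rw [hM, this, hy0]
      simp [zero_pow (show q ≠ 0 by omega)]
    have hF1 : F.natAbs = 1 := by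
      have h5 : |F| = 1 := by rw [hF, hy0, zero_pow (by omega), sub_zero, abs_pow, hx1, one_pow]
      have h6 : (F.natAbs : ℤ) = 1 := by rw [Int.natCast_natAbs]; exact h5
      exact_mod_cast h6
    rw [hM1, Real.one_rpow, mul_one, hF1]
    exact min_le_right _ _
  have hx1 : (1 : ℝ) ≤ |(x : ℝ)| := by exact_mod_cast Int.one_le_abs hx0
  have hy1 : (1 : ℝ) ≤ |(y : ℝ)| := by exact_mod_cast Int.one_le_abs hy0
  have hM1 : 1 ≤ M := by rw [hM]; exact le_max_of_le_left (one_le_pow₀ hx1)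
  have hM0 : 0 < M := by linarith
  have hcop : IsCoprime F (y ^ q) := by
    have h1 : IsCoprime (x ^ p) (y ^ q) := hxy.pow
    have h2 := h1.add_mul_right_left (-1)
    have h3 : x ^ p + -1 * y ^ q = F := by rw [hF]; ring
    rwa [h3] at h2
  have h1 := hκ F (y ^ q) (x ^ p) hF0 (pow_ne_zero _ hy0) (pow_ne_zero _ hx0) hcop (by rw [hF]; ring) M hM1
    (Or.inr (by
      rw [hM]
      rcases le_total (|(x : ℝ)| ^ p) (|(y : ℝ)| ^ q) with h | h
      · left; rw [max_eq_right h]; push_cast; rw [abs_pow]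
      · right; rw [max_eq_left h]; push_cast; rw [abs_pow]))
  have h3 : Φ (F * y ^ q * x ^ p).natAbs ≤ A * Φ F.natAbs * (|(x : ℝ)| * |(y : ℝ)|) := by
    have h4 := phi_bound hΦ (F := F) (E := F * y ^ q * x ^ p) (w := x * y) hF0
      (mul_ne_zero (mul_ne_zero hF0 (pow_ne_zero _ hy0)) (pow_ne_zero _ hx0)) (mul_ne_zero hx0 hy0)
      (fun ℓ _ hd => (hd.mul_right _).mul_right _) (fun ℓ hℓ hd => by
        rcases hℓ.dvd_or_dvd hd with h | h
        · rcases hℓ.dvd_or_dvd h with h | h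
          · exact h.mul_right _
          · exact ((hℓ.dvd_of_dvd_pow h).mul_left _).mul_left _
        · exact ((hℓ.dvd_of_dvd_pow h).mul_right _).mul_left _)
    push_cast at h4
    rwa [abs_mul] at h4
  have hPF := hΦ.pos F.natAbs (Int.natAbs_ne_zero.2 hF0)
  have h4 : |(x : ℝ)| ≤ M ^ (1 / (p : ℝ)) :=
    le_rpow_inv (abs_nonneg _) hp (by rw [hM]; exact le_max_left _ _)
  have h5 : |(y : ℝ)| ≤ M ^ (1 / (q : ℝ)) :=
    le_rpow_inv (abs_nonneg _) hq (by rw [hM]; exact le_max_right _ _)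
  have h6 : κ * M ^ (1 - ε) ≤ A * Φ F.natAbs * (M ^ (1 / (p : ℝ)) * M ^ (1 / (q : ℝ))) := by
    refine h1.trans (h3.trans (mul_le_mul_of_nonneg_left ?_ (by positivity)))
    exact mul_le_mul h4 h5 (abs_nonneg _) (by positivity)
  have h7 : M ^ (1 - 1 / (p : ℝ) - 1 / (q : ℝ) - ε) * (M ^ (1 / (p : ℝ)) * M ^ (1 / (q : ℝ))) =
      M ^ (1 - ε) := by
    rw [← Real.rpow_add hM0, ← Real.rpow_add hM0]
    congr 1
    ring
  have h8 : (κ / A * M ^ (1 - 1 / (p : ℝ) - 1 / (q : ℝ) - ε)) *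
      (M ^ (1 / (p : ℝ)) * M ^ (1 / (q : ℝ))) ≤
      Φ F.natAbs * (M ^ (1 / (p : ℝ)) * M ^ (1 / (q : ℝ))) := by
    rw [mul_assoc, h7, div_mul_eq_mul_div, div_le_iff₀ hA0]
    linarith
  have h9 := le_of_mul_le_mul_right h8 (by positivity)
  exact (mul_le_mul_of_nonneg_right (min_le_left _ _) (by positivity)).trans h9

theorem abc_twoCusps {Φ : ℕ → ℝ} {A : ℝ} (hΦ : RadLike Φ A) (h : ABC Φ) (n N : ℕ) (hn : 1 ≤ n)
    (δ : ℝ) : TwoCusps Φ n N δ := by
  intro ε hε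
  obtain ⟨κ, hκ0, hκ1, hκ⟩ := fwd hΦ h hε
  have hA := hΦ.one_le
  have hA0 : 0 < A := by linarith
  have hP1 := hΦ.pos 1 one_ne_zero
  refine ⟨min (κ / (2 * A)) (Φ 1), lt_min (by positivity) hP1, ?_⟩
  intro u v x huv hu0 hv0 hsum _ _
  obtain ⟨M, hM⟩ : ∃ M : ℝ, M = max |(u : ℝ)| |(v : ℝ)| := ⟨_, rfl⟩
  rw [← hM]
  have hu1 : (1 : ℝ) ≤ |(u : ℝ)| := by exact_mod_cast Int.one_le_abs hu0
  have hM1 : 1 ≤ M := by rw [hM]; exact le_max_of_le_left hu1
  have hM0 : 0 < M := by linarith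
  by_cases hx0 : x = 0
  · have h1 : v = -u := by
      rw [hx0, zero_pow (show n ≠ 0 by omega)] at hsum
      linarith
    have h2 : |u| = 1 := by
      rw [h1] at huv
      have := (IsCoprime.neg_right_iff u u).1 huv
      rw [isCoprime_self] at this
      exact Int.isUnit_iff_abs_eq.1 this
    have hM1 : M = 1 := by
      have h3 : |(u : ℝ)| = 1 := by exact_mod_cast h2
      rw [hM, h1]
      push_cast
      rw [abs_neg, h3, max_self]
    have hF1 : (u * v).natAbs = 1 := by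
      have h5 : |u * v| = 1 := by rw [h1, abs_mul, abs_neg, h2, one_mul]
      have h6 : ((u * v).natAbs : ℤ) = 1 := by rw [Int.natCast_natAbs]; exact h5
      exact_mod_cast h6
    rw [hM1, Real.one_rpow, mul_one, hF1]
    exact min_le_right _ _
  have hx1 : (1 : ℝ) ≤ |(x : ℝ)| := by exact_mod_cast Int.one_le_abs hx0
  have h1 := hκ u v (x ^ n) hu0 hv0 (pow_ne_zero _ hx0) huv hsum M hM1 (by
    rw [hM]
    rcases le_total |(u : ℝ)| |(v : ℝ)| with h | h
    · right; left; rw [max_eq_right h]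
    · left; rw [max_eq_left h])
  have hPF := hΦ.pos (u * v).natAbs (Int.natAbs_ne_zero.2 (mul_ne_zero hu0 hv0))
  have h3 : Φ (u * v * x ^ n).natAbs ≤ A * Φ (u * v).natAbs * |(x : ℝ)| :=
    phi_bound hΦ (mul_ne_zero hu0 hv0) (mul_ne_zero (mul_ne_zero hu0 hv0) (pow_ne_zero _ hx0)) hx0
      (fun ℓ _ hd => hd.mul_right _) (fun ℓ hℓ hd => by
        rcases hℓ.dvd_or_dvd hd with h | h
        · exact h.mul_right _
        · exact (hℓ.dvd_of_dvd_pow h).mul_left _)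
  have hnR : (1 : ℝ) ≤ n := by exact_mod_cast hn
  have h4 : |(x : ℝ)| ≤ 2 * M ^ (1 / (n : ℝ)) := by
    have h5 : |(x : ℝ)| ^ n ≤ 2 * M := by
      rw [← abs_pow]
      have : ((x ^ n : ℤ) : ℝ) = u + v := by rw [← hsum]; push_cast; ring
      push_cast at this
      rw [this, hM]
      calc |(u : ℝ) + v| ≤ |(u : ℝ)| + |(v : ℝ)| := abs_add_le _ _
        _ ≤ max |(u : ℝ)| |(v : ℝ)| + max |(u : ℝ)| |(v : ℝ)| :=
            add_le_add (le_max_left _ _) (le_max_right _ _)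
        _ = _ := by ring
    have h6 := le_rpow_inv (abs_nonneg _) hn h5
    rw [Real.mul_rpow (by norm_num) hM0.le] at h6
    refine h6.trans (mul_le_mul_of_nonneg_right ?_ (by positivity))
    calc (2 : ℝ) ^ (1 / (n : ℝ)) ≤ 2 ^ (1 : ℝ) := by
          apply Real.rpow_le_rpow_of_exponent_le (by norm_num)
          rw [div_le_one (by linarith)]; exact hnR
      _ = 2 := Real.rpow_one 2
  have h6 : κ * M ^ (1 - ε) ≤ A * Φ (u * v).natAbs * (2 * M ^ (1 / (n : ℝ))) :=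
    h1.trans (h3.trans (mul_le_mul_of_nonneg_left h4 (by positivity)))
  have h7 : M ^ (1 - 1 / (n : ℝ) - ε) * M ^ (1 / (n : ℝ)) = M ^ (1 - ε) := by
    rw [← Real.rpow_add hM0]
    congr 1
    ring
  have h8 : (κ / (2 * A) * M ^ (1 - 1 / (n : ℝ) - ε)) * (2 * A * M ^ (1 / (n : ℝ))) ≤
      Φ (u * v).natAbs * (2 * A * M ^ (1 / (n : ℝ))) := by
    calc (κ / (2 * A) * M ^ (1 - 1 / (n : ℝ) - ε)) * (2 * A * M ^ (1 / (n : ℝ))) =
        κ * (M ^ (1 - 1 / (n : ℝ) - ε) * M ^ (1 / (n : ℝ))) := by field_simp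
      _ = κ * M ^ (1 - ε) := by rw [h7]
      _ ≤ A * Φ (u * v).natAbs * (2 * M ^ (1 / (n : ℝ))) := h6
      _ = _ := by ring
  have h9 := le_of_mul_le_mul_right h8 (by positivity)
  exact (mul_le_mul_of_nonneg_right (min_le_left _ _) (by positivity)).trans h9

/-- the inequality for `(m p, m q)` implies the one for `(p, q)` -/
theorem oneCusp_mul {Φ : ℕ → ℝ} {A : ℝ} (hΦ : RadLike Φ A) (m p q N : ℕ) (hm : 1 ≤ m) (hp : 1 ≤ p)
    (hq : 1 ≤ q) (δ : ℝ) (hδ : 0 < δ)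
    (h : OneCusp Φ (p * m) (q * m) N δ) : OneCusp Φ p q N (δ / m) := by
  intro ε hε
  have hA := hΦ.one_le
  have hA0 : 0 < A := by linarith
  have hm0 : (0 : ℝ) < m := by exact_mod_cast hm
  have hm1 : (1 : ℝ) ≤ m := by exact_mod_cast hm
  obtain ⟨κ, hκ0, hκ⟩ := h (ε / m) (by positivity)
  have hP2 := hΦ.pos 2 two_ne_zero
  refine ⟨min (κ / (m * A)) (Φ 2), lt_min (by positivity) hP2, ?_⟩
  intro x y hxy hne hN hclose
  obtain ⟨M, hM⟩ : ∃ M : ℝ, M = max (|(x : ℝ)| ^ p) (|(y : ℝ)| ^ q) := ⟨_, rfl⟩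
  rw [← hM] at hclose ⊢
  obtain ⟨F, hF⟩ : ∃ F : ℤ, F = x ^ p - y ^ q := ⟨_, rfl⟩
  rw [← hF] at hN ⊢
  have hF0 : F ≠ 0 := by rw [hF]; exact sub_ne_zero.2 hne
  have hPF := hΦ.pos F.natAbs (Int.natAbs_ne_zero.2 hF0)
  have hM1 : 1 ≤ M := by
    rw [hM]
    by_cases hx0 : x = 0
    · have hy0 : y ≠ 0 := by
        rintro rfl
        rw [hx0, isCoprime_self] at hxy
        exact not_isUnit_zero hxy
      exact le_max_of_le_right (one_le_pow₀ (by exact_mod_cast Int.one_le_abs hy0))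
    · exact le_max_of_le_left (one_le_pow₀ (by exact_mod_cast Int.one_le_abs hx0))
  have hM0 : 0 < M := by linarith
  by_cases hne' : x ^ (p * m) = y ^ (q * m)
  · have h1 : |x| ^ (p * m) = |y| ^ (q * m) := by rw [← abs_pow, ← abs_pow, hne']
    have h2 : |x| = 1 := abs_eq_one_of (Nat.mul_pos hp hm) hxy h1
    have h3 : |y| = 1 := abs_eq_one_of (Nat.mul_pos hq hm) hxy.symm h1.symm
    have h4 : |(x : ℝ)| = 1 := by exact_mod_cast h2
    have h5 : |(y : ℝ)| = 1 := by exact_mod_cast h3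
    have h6 : M = 1 := by rw [hM, h4, h5, one_pow, one_pow, max_self]
    have hF2 : F.natAbs = 2 := by
      have h7 : |x ^ p| = 1 := by rw [abs_pow, h2, one_pow]
      have h8 : |y ^ q| = 1 := by rw [abs_pow, h3, one_pow]
      rcases (abs_eq zero_le_one).1 h7 with h9 | h9 <;> rcases (abs_eq zero_le_one).1 h8 with h10 | h10 <;>
        rw [h9, h10] at hF <;> omega
    rw [h6, Real.one_rpow, mul_one, hF2]
    exact min_le_right _ _
  · obtain ⟨G, hG⟩ : ∃ G : ℤ, G = ∑ i ∈ Finset.range m, (x ^ p) ^ i * (y ^ q) ^ (m - 1 - i) := ⟨_, rfl⟩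
    have hFG : x ^ (p * m) - y ^ (q * m) = F * G := by
      rw [pow_mul, pow_mul, hF, hG, mul_comm]
      exact ((Commute.all (x ^ p) (y ^ q)).geom_sum₂_mul m).symm
    have hG0 : G ≠ 0 := by
      intro h0
      apply hne'
      rw [h0, mul_zero] at hFG
      linarith
    have hGle : |(G : ℝ)| ≤ m * M ^ (m - 1) := by
      rw [hG]
      push_cast
      calc |∑ i ∈ Finset.range m, ((x : ℝ) ^ p) ^ i * ((y : ℝ) ^ q) ^ (m - 1 - i)| ≤
          ∑ i ∈ Finset.range m, |((x : ℝ) ^ p) ^ i * ((y : ℝ) ^ q) ^ (m - 1 - i)| :=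
            Finset.abs_sum_le_sum_abs _ _
        _ ≤ ∑ i ∈ Finset.range m, M ^ (m - 1) := by
            refine Finset.sum_le_sum fun i hi => ?_
            have hi' : i + (m - 1 - i) = m - 1 := by
              have := Finset.mem_range.1 hi
              omega
            have hx' : |(x : ℝ) ^ p| ≤ M := by rw [abs_pow, hM]; exact le_max_left _ _
            have hy' : |(y : ℝ) ^ q| ≤ M := by rw [abs_pow, hM]; exact le_max_right _ _
            calc |((x : ℝ) ^ p) ^ i * ((y : ℝ) ^ q) ^ (m - 1 - i)| =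
                |(x : ℝ) ^ p| ^ i * |(y : ℝ) ^ q| ^ (m - 1 - i) := by
                  rw [abs_mul, abs_pow ((x : ℝ) ^ p), abs_pow ((y : ℝ) ^ q)]
              _ ≤ M ^ i * M ^ (m - 1 - i) :=
                  mul_le_mul (pow_le_pow_left₀ (abs_nonneg _) hx' _)
                    (pow_le_pow_left₀ (abs_nonneg _) hy' _) (by positivity) (by positivity)
              _ = M ^ (m - 1) := by rw [← pow_add, hi']
        _ = _ := by rw [Finset.sum_const, Finset.card_range, nsmul_eq_mul]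
    have hMm : max (|(x : ℝ)| ^ (p * m)) (|(y : ℝ)| ^ (q * m)) = M ^ m := by
      rw [pow_mul, pow_mul, hM]
      rcases le_total (|(x : ℝ)| ^ p) (|(y : ℝ)| ^ q) with h1 | h1
      · rw [max_eq_right h1, max_eq_right (pow_le_pow_left₀ (by positivity) h1 m)]
      · rw [max_eq_left h1, max_eq_left (pow_le_pow_left₀ (by positivity) h1 m)]
    have h1 := hκ x y hxy hne' (by rw [hFG]; exact hN.mul_right _) (by
      rw [hMm]
      have e1 : (x : ℝ) ^ (p * m) - (y : ℝ) ^ (q * m) = (F : ℝ) * G := by exact_mod_cast hFG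
      have e2 : (F : ℝ) = (x : ℝ) ^ p - (y : ℝ) ^ q := by rw [hF]; push_cast; ring
      rw [e1, abs_mul, e2]
      calc |(x : ℝ) ^ p - (y : ℝ) ^ q| * |(G : ℝ)| ≤ (δ / m * M) * (m * M ^ (m - 1)) :=
            mul_le_mul hclose hGle (abs_nonneg _) (by positivity)
        _ = δ * (M * M ^ (m - 1)) := by field_simp
        _ = δ * M ^ m := by rw [← pow_succ', Nat.sub_add_cancel hm])
    rw [hMm, hFG] at h1
    have h3 : Φ (F * G).natAbs ≤ A * Φ F.natAbs * (m * M ^ (m - 1)) := by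
      refine (phi_bound hΦ (w := G) hF0 (mul_ne_zero hF0 hG0) hG0
        (fun ℓ _ hd => hd.mul_right _) (fun ℓ _ hd => hd)).trans ?_
      exact mul_le_mul_of_nonneg_left hGle (by positivity)
    have hp0 : (0 : ℝ) < p := by exact_mod_cast hp
    have hq0 : (0 : ℝ) < q := by exact_mod_cast hq
    have h4 : (M ^ m) ^ (1 - 1 / ((p * m : ℕ) : ℝ) - 1 / ((q * m : ℕ) : ℝ) - ε / m) =
        M ^ (1 - 1 / (p : ℝ) - 1 / (q : ℝ) - ε) * M ^ (m - 1) := by
      rw [← Real.rpow_natCast M (m - 1), ← Real.rpow_natCast M m, ← Real.rpow_mul hM0.le,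
        ← Real.rpow_add hM0]
      congr 1
      rw [Nat.cast_sub hm]
      push_cast
      field_simp
      ring
    rw [h4] at h1
    have h5 : (κ / (m * A) * M ^ (1 - 1 / (p : ℝ) - 1 / (q : ℝ) - ε)) * (m * A * M ^ (m - 1)) ≤
        Φ F.natAbs * (m * A * M ^ (m - 1)) := by
      calc (κ / (m * A) * M ^ (1 - 1 / (p : ℝ) - 1 / (q : ℝ) - ε)) * (m * A * M ^ (m - 1)) =
          κ * (M ^ (1 - 1 / (p : ℝ) - 1 / (q : ℝ) - ε) * M ^ (m - 1)) := by field_simp
        _ ≤ A * Φ F.natAbs * (m * M ^ (m - 1)) := h1.trans h3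
        _ = _ := by ring
    have h6 := le_of_mul_le_mul_right h5 (by positivity)
    refine le_trans (mul_le_mul_of_nonneg_right (min_le_left _ _) ?_) h6
    exact Real.rpow_nonneg hM0.le _

end Pool.Agent.N757.OH
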