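import Mathlib
import Pool.Agent.N757.OH.Fwd
import Pool.Agent.N757.OC.Poly

/-!
# Functions like the radical: Belyi's polynomial
-/

set_option autoImplicit false

namespace Pool.Agent.N757.OH

open Pool.Agent.N757.OC (belyi_dvd)

theorem construct {Φ : ℕ → ℝ} {A : ℝ} (hΦ : RadLike Φ A) (n : ℕ) (hn : 2 ≤ n) (N : ℕ) (hN : 1 ≤ N)
    (δ : ℝ) (hδ : 0 < δ) :
    ∃ (N' : ℕ) (δ' K : ℝ), 1 ≤ N' ∧ 0 < δ' ∧ 1 ≤ K ∧ ∀ a b c : ℕ, 0 < a → 0 < b → Nat.Coprime a b →
      a + b = c → N' ∣ a → (a : ℝ) ≤ δ' * c → ∃ u v x : ℤ, u + v = x ^ n ∧ u < 0 ∧ 0 < v ∧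
        IsCoprime u v ∧ Odd x ∧ (N : ℤ) ∣ u ∧ |(u : ℝ)| ≤ δ * v ∧ (c : ℝ) ^ n ≤ K * v ∧
        Φ (u * v).natAbs ≤ K * Φ (a * b * c) * (c : ℝ) ^ (n - 2) ∧
        Φ (4 * u * v).natAbs ≤ K * Φ (a * b * c) * (c : ℝ) ^ (n - 2) := by
  have hA := hΦ.one_le
  have hA0 : 0 < A := by linarith
  obtain ⟨γ, rfl⟩ : ∃ γ, n = γ + 2 := ⟨n - 2, by omega⟩
  set D : ℝ := ((γ : ℝ) + 2) ^ (γ + 2) with hD
  have hD1 : 1 ≤ D := one_le_pow₀ (by have : (0 : ℝ) ≤ γ := Nat.cast_nonneg γ
                                      linarith)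
  set δ' : ℝ := min (1 / 4) (δ / (2 ^ (γ + 2) * D)) with hδ'
  have hδ'0 : 0 < δ' := lt_min (by norm_num) (by positivity)
  have hδ'4 : δ' ≤ 1 / 4 := min_le_left _ _
  have hδ'δ : δ' ≤ δ / (2 ^ (γ + 2) * D) := min_le_right _ _
  have h2p : (1 : ℝ) ≤ 2 ^ (γ + 2) := one_le_pow₀ (by norm_num)
  refine ⟨2 * N * (γ + 2) * (γ + 1) ^ (γ + 3), δ', 2 ^ (γ + 2) + A * (2 * ((γ : ℝ) + 2) * (1 + D)), ?_, hδ'0,
    ?_, ?_⟩
  · have h1 : 1 ≤ 2 * N * (γ + 2) := Nat.mul_pos (Nat.mul_pos two_pos hN) (by omega)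
    exact Nat.mul_pos h1 (by positivity)
  · have : (0 : ℝ) ≤ A * (2 * ((γ : ℝ) + 2) * (1 + D)) := by positivity
    linarith
  intro a b c ha hb hab habc hdvd hac
  obtain ⟨a₁, ha₁⟩ := hdvd
  set z : ℕ := 2 * N * (γ + 2) * (γ + 1) * a₁ with hz
  have haz : a = (γ + 1) ^ (γ + 2) * z := by rw [ha₁, hz]; ring
  have hz0 : 0 < z := by
    rcases Nat.eq_zero_or_pos z with h | h
    · rw [h, mul_zero] at haz; omega
    · exact h
  set w : ℤ := ((γ : ℤ) + 1) ^ (γ + 1) * z with hw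
  have haw : (a : ℤ) = ((γ : ℤ) + 1) * w := by
    rw [haz, hw]; push_cast; ring
  have hw0 : 0 < w := by
    have : (0 : ℤ) < z := by exact_mod_cast hz0
    positivity
  have hwa : w ≤ a := by
    rw [haw]
    nlinarith [Int.natCast_nonneg γ]
  have hcb : (c : ℤ) = b + a := by rw [← habc]; push_cast; ring
  have hcR : (1 : ℝ) ≤ c := by exact_mod_cast (by omega : 1 ≤ c)
  have hc0 : (0 : ℝ) < c := by linarith
  set x : ℤ := b - w with hx
  set n : ℤ := (γ : ℤ) + 2 with hn'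
  set T : ℤ := n ^ (γ + 2) * z * b ^ (γ + 1) with hT
  have hb0 : (0 : ℤ) < b := by exact_mod_cast hb
  have hz0' : (0 : ℤ) < z := by exact_mod_cast hz0
  have hT0 : 0 < T := by positivity
  have hxc : x = c - n * w := by rw [hx, hcb, haw, hn']; ring
  have hbc : (b : ℤ) = c - ((γ : ℤ) + 1) * w := by rw [hcb, haw]; ring
  -- size of `x`
  have hxR : (c : ℝ) / 2 ≤ x := by
    have h1 : (x : ℝ) = b - w := by rw [hx]; push_cast; ring
    have h2 : (w : ℝ) ≤ a := by exact_mod_cast hwa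
    have h3 : (c : ℝ) = b + a := by exact_mod_cast hcb
    have h4 : (a : ℝ) ≤ 1 / 4 * c := hac.trans (mul_le_mul_of_nonneg_right hδ'4 hc0.le)
    rw [h1]; linarith
  have hxc' : (x : ℝ) ≤ c := by
    have : x ≤ c := by rw [hxc]; nlinarith [Int.natCast_nonneg γ]
    exact_mod_cast this
  have hx0 : (0 : ℝ) < x := by linarith
  have hx0' : 0 < x := by exact_mod_cast hx0
  have hxn0 : 0 < x ^ (γ + 2) := by positivity
  set v : ℤ := x ^ (γ + 2) + T with hv
  have hv0 : 0 < v := by positivity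
  obtain ⟨G, hG⟩ : (c : ℤ) ^ 2 ∣ v := by
    have := belyi_dvd γ z w c hw
    rwa [← hn', ← hxc, ← hbc] at this
  have hc0' : (0 : ℤ) < c := by exact_mod_cast (by omega : 0 < c)
  have hG0 : 0 < G := by
    by_contra h
    push Not at h
    have : (c : ℤ) ^ 2 * G ≤ 0 := mul_nonpos_of_nonneg_of_nonpos (by positivity) h
    omega
  -- coprimality
  have habZ : IsCoprime (a : ℤ) (b : ℤ) := Nat.isCoprime_iff_coprime.2 hab
  have hwb : IsCoprime w (b : ℤ) := habZ.of_isCoprime_of_dvd_left ⟨(γ : ℤ) + 1, by rw [haw]; ring⟩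
  have hwx : IsCoprime w x := by
    have := hwb.add_mul_left_right (-1)
    rwa [show (b : ℤ) + w * -1 = x by rw [hx]; ring] at this
  have hzw : (z : ℤ) ∣ w := ⟨((γ : ℤ) + 1) ^ (γ + 1), by rw [hw]; ring⟩
  have hnz : n ∣ (z : ℤ) := ⟨2 * N * (γ + 1) * a₁, by rw [hz, hn']; push_cast; ring⟩
  have hzx : IsCoprime (z : ℤ) x := hwx.of_isCoprime_of_dvd_left hzw
  have hnx : IsCoprime n x := hzx.of_isCoprime_of_dvd_left hnz
  have hbx : IsCoprime (b : ℤ) x := by
    have h1 : IsCoprime (b : ℤ) (-w) := hwb.symm.neg_right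
    have := h1.add_mul_left_right 1
    rwa [show -w + (b : ℤ) * 1 = x by rw [hx]; ring] at this
  have hTx : IsCoprime T x := (hnx.pow_left.mul_left hzx).mul_left hbx.pow_left
  have hcop : IsCoprime (-T) v := by
    have h1 : IsCoprime T (x ^ (γ + 2)) := hTx.pow_right
    have h2 := h1.add_mul_left_right 1
    rw [mul_one, ← hv] at h2
    exact h2.neg_left
  have hTle : (T : ℝ) ≤ D * δ' * (c : ℝ) ^ (γ + 2) := by
    have h1 : (T : ℝ) = D * z * (b : ℝ) ^ (γ + 1) := by rw [hT, hn', hD]; push_cast; ring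
    have h2 : (z : ℝ) ≤ δ' * c := by
      have h3 : z ≤ a := by
        rw [haz]; exact Nat.le_mul_of_pos_left _ (by positivity)
      exact le_trans (by exact_mod_cast h3) hac
    have h3 : (b : ℝ) ≤ c := by exact_mod_cast (by omega : b ≤ c)
    rw [h1]
    calc D * z * (b : ℝ) ^ (γ + 1) ≤ D * (δ' * c) * (c : ℝ) ^ (γ + 1) :=
          mul_le_mul (mul_le_mul_of_nonneg_left h2 (by linarith))
            (pow_le_pow_left₀ (by positivity) h3 _) (by positivity) (by positivity)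
      _ = _ := by ring
  have hcn : (c : ℝ) ^ (γ + 2) ≤ 2 ^ (γ + 2) * v := by
    have h1 : ((c : ℝ) / 2) ^ (γ + 2) ≤ (x : ℝ) ^ (γ + 2) := pow_le_pow_left₀ (by positivity) hxR _
    have h2 : (x : ℝ) ^ (γ + 2) ≤ v := by
      have : x ^ (γ + 2) ≤ v := by rw [hv]; linarith
      exact_mod_cast this
    rw [div_pow, div_le_iff₀ (by positivity)] at h1
    calc (c : ℝ) ^ (γ + 2) ≤ (x : ℝ) ^ (γ + 2) * 2 ^ (γ + 2) := h1
      _ ≤ v * 2 ^ (γ + 2) := mul_le_mul_of_nonneg_right h2 (by positivity)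
      _ = _ := by ring
  have hvR0 : (0 : ℝ) < v := by exact_mod_cast hv0
  refine ⟨-T, v, x, by rw [hv]; ring, by linarith, hv0, hcop, ?_, ?_, ?_, ?_, ?_⟩
  · -- `x` is odd
    have h1 : (2 : ℤ) ∣ w := Dvd.dvd.trans ⟨N * (γ + 2) * (γ + 1) * a₁, by rw [hz]; push_cast; ring⟩ hzw
    have h2 : Odd (b : ℤ) := by
      rw [← Int.not_even_iff_odd]
      intro h
      have h3 : (2 : ℤ) ∣ a := by rw [haw]; exact h1.mul_left _
      have h4 := habZ.isUnit_of_dvd' h3 h.two_dvd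
      rw [Int.isUnit_iff] at h4
      omega
    rw [hx]
    exact h2.sub_even (even_iff_two_dvd.2 h1)
  · rw [hT]
    have h1 : (N : ℤ) ∣ z := ⟨2 * (γ + 2) * (γ + 1) * a₁, by rw [hz]; push_cast; ring⟩
    exact ((h1.mul_left _).mul_right _).neg_right
  · push_cast
    rw [abs_neg, abs_of_pos (by exact_mod_cast hT0)]
    calc (T : ℝ) ≤ D * δ' * (c : ℝ) ^ (γ + 2) := hTle
      _ ≤ D * (δ / (2 ^ (γ + 2) * D)) * (2 ^ (γ + 2) * v) :=
          mul_le_mul (mul_le_mul_of_nonneg_left hδ'δ (by linarith)) hcn (by positivity) (by positivity)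
      _ = δ * v := by field_simp
  · refine hcn.trans (mul_le_mul_of_nonneg_right ?_ hvR0.le)
    have : (0 : ℝ) ≤ A * (2 * ((γ : ℝ) + 2) * (1 + D)) := by positivity
    linarith
  · -- the radical
    have hGle : (G : ℝ) ≤ (1 + D) * (c : ℝ) ^ γ := by
      have h1 : (v : ℝ) ≤ (1 + D) * (c : ℝ) ^ (γ + 2) := by
        have h2 : (v : ℝ) = (x : ℝ) ^ (γ + 2) + T := by rw [hv]; push_cast; ring
        have h3 : (x : ℝ) ^ (γ + 2) ≤ (c : ℝ) ^ (γ + 2) := pow_le_pow_left₀ hx0.le hxc' _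
        have h4 : D * δ' * (c : ℝ) ^ (γ + 2) ≤ D * 1 * (c : ℝ) ^ (γ + 2) :=
          mul_le_mul_of_nonneg_right (mul_le_mul_of_nonneg_left (by linarith) (by linarith))
            (by positivity)
        rw [h2]; linarith
      have h2 : (v : ℝ) = (c : ℝ) ^ 2 * G := by rw [hG]; push_cast; ring
      rw [h2] at h1
      have h3 : (c : ℝ) ^ 2 * G ≤ (c : ℝ) ^ 2 * ((1 + D) * (c : ℝ) ^ γ) := by
        calc (c : ℝ) ^ 2 * G ≤ (1 + D) * (c : ℝ) ^ (γ + 2) := h1
          _ = _ := by ring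
      exact le_of_mul_le_mul_left h3 (by positivity)
    have habc0 : a * b * c ≠ 0 := by
      have : 0 < c := by omega
      positivity
    have hR : 0 < Φ (a * b * c) := hΦ.pos _ habc0
    have key : ∀ E : ℤ, E ≠ 0 → -T * v ∣ E → E ∣ 4 * -T * v →
        Φ E.natAbs ≤ (2 ^ (γ + 2) + A * (2 * ((γ : ℝ) + 2) * (1 + D))) * Φ (a * b * c) *
          (c : ℝ) ^ (γ + 2 - 2) := by
      intro E hE hE1 hE2
      have h1 := phi_bound hΦ (F := (a : ℤ) * b * c) (E := E) (w := 2 * n * G)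
        (by positivity) hE (by positivity) (fun ℓ hℓ hd => by
          refine Dvd.dvd.trans ?_ hE1
          rw [hG]
          rcases hℓ.dvd_or_dvd hd with h | h
          · rcases hℓ.dvd_or_dvd h with h | h
            · have h2 : ℓ ∣ (z : ℤ) := by
                rw [haz] at h
                push_cast at h
                rcases hℓ.dvd_or_dvd h with h | h
                · refine (hℓ.dvd_of_dvd_pow h).trans ⟨2 * N * (γ + 2) * a₁, ?_⟩
                  rw [hz]; push_cast; ring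
                · exact h
              exact ((((h2.mul_left _).mul_right _).neg_right).mul_right _)
            · have h2 : ℓ ∣ (b : ℤ) ^ (γ + 1) := dvd_pow h (by omega)
              exact ((h2.mul_left _).neg_right).mul_right _
          · exact ((dvd_pow h two_ne_zero).mul_right _).mul_left _) (fun ℓ hℓ hd => by
          have hd' := hd.trans hE2
          rw [hG] at hd'
          rcases hℓ.dvd_or_dvd hd' with h | h
          · rcases hℓ.dvd_or_dvd h with h | h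
            · have h2 : ℓ ∣ 2 := by
                rw [show (4 : ℤ) = 2 ^ 2 by norm_num] at h
                exact hℓ.dvd_of_dvd_pow h
              exact ((h2.mul_right _).mul_right _).mul_left _
            · rw [dvd_neg] at h
              rcases hℓ.dvd_or_dvd h with h | h
              · rcases hℓ.dvd_or_dvd h with h | h
                · exact (((hℓ.dvd_of_dvd_pow h).mul_left _).mul_right _).mul_left _
                · have h2 : ℓ ∣ (a : ℤ) := by rw [haz]; push_cast; exact h.mul_left _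
                  exact ((h2.mul_right _).mul_right _).mul_right _
              · exact (((hℓ.dvd_of_dvd_pow h).mul_left _).mul_right _).mul_right _
          · rcases hℓ.dvd_or_dvd h with h | h
            · exact ((hℓ.dvd_of_dvd_pow h).mul_left _).mul_right _
            · exact (h.mul_left _).mul_left _)
      have e1 : ((a : ℤ) * b * c).natAbs = a * b * c := by
        rw [Int.natAbs_mul, Int.natAbs_mul, Int.natAbs_natCast, Int.natAbs_natCast, Int.natAbs_natCast]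
      have e2 : |(((2 * n * G : ℤ)) : ℝ)| = 2 * ((γ : ℝ) + 2) * G := by
        rw [abs_of_nonneg (by positivity), hn']
        push_cast; ring
      rw [e1, e2] at h1
      calc Φ E.natAbs ≤ A * Φ (a * b * c) * (2 * ((γ : ℝ) + 2) * G) := h1
        _ ≤ A * Φ (a * b * c) * (2 * ((γ : ℝ) + 2) * ((1 + D) * (c : ℝ) ^ γ)) :=
            mul_le_mul_of_nonneg_left (mul_le_mul_of_nonneg_left hGle (by positivity)) (by positivity)
        _ = (A * (2 * ((γ : ℝ) + 2) * (1 + D))) * Φ (a * b * c) * (c : ℝ) ^ γ := by ring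
        _ ≤ (2 ^ (γ + 2) + A * (2 * ((γ : ℝ) + 2) * (1 + D))) * Φ (a * b * c) *
              (c : ℝ) ^ (γ + 2 - 2) := by
            rw [Nat.add_sub_cancel]
            apply mul_le_mul_of_nonneg_right _ (by positivity)
            apply mul_le_mul_of_nonneg_right _ hR.le
            linarith
    have hu0 : -T ≠ 0 := neg_ne_zero.2 hT0.ne'
    refine ⟨key _ (mul_ne_zero hu0 hv0.ne') dvd_rfl ⟨4, by ring⟩,
      key _ (mul_ne_zero (mul_ne_zero (by norm_num) hu0) hv0.ne') ⟨4, by ring⟩ dvd_rfl⟩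

theorem twoCusps_abc {Φ : ℕ → ℝ} {A : ℝ} (hΦ : RadLike Φ A) (n : ℕ) (hn : 2 ≤ n) (N : ℕ) (hN : 1 ≤ N)
    (δ : ℝ) (hδ : 0 < δ) (h : TwoCusps Φ n N δ) : ABC Φ := by
  obtain ⟨N', δ', K, h1, h2, h3, h4⟩ := construct hΦ n hn N hN δ hδ
  have hn0 : (n : ℝ) ≠ 0 := by
    have : n ≠ 0 := by omega
    exact_mod_cast this
  refine bridge hΦ N' δ' h1 h2 (1 - 1 / (n : ℝ)) n (n - 2) (by omega) ?_ K h3 ?_
  · rw [Nat.cast_sub hn]; push_cast; field_simp; ring
  · intro ε hε
    obtain ⟨κ, hκ0, hκ⟩ := h ε hε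
    refine ⟨κ, hκ0, ?_⟩
    intro a b c ha hb hab habc hdvd hac
    obtain ⟨u, v, x, k1, k2, k3, k4, k5, k6, k7, k8, k9, k10⟩ := h4 a b c ha hb hab habc hdvd hac
    have hv0 : (0 : ℝ) < v := by exact_mod_cast k3
    refine ⟨max |(u : ℝ)| |(v : ℝ)|, Φ (u * v).natAbs, ?_, ?_, k9⟩
    · refine k8.trans (mul_le_mul_of_nonneg_left ?_ (by linarith))
      exact le_trans (le_abs_self _) (le_max_right _ _)
    · exact hκ u v x k4 k2.ne k3.ne' k1 k6 (by rw [abs_of_pos hv0]; exact k7)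

theorem oneCusp_even_abc {Φ : ℕ → ℝ} {A : ℝ} (hΦ : RadLike Φ A) (k : ℕ) (hk : 2 ≤ k) (N : ℕ)
    (hN : 1 ≤ N) (δ : ℝ) (hδ : 0 < δ) (h : OneCusp Φ (2 * k) 2 N δ) : ABC Φ := by
  obtain ⟨N', δ', K, h1, h2, h3, h4⟩ := construct hΦ k hk N hN (δ / 4) (by positivity)
  have hk0 : (k : ℝ) ≠ 0 := by
    have : k ≠ 0 := by omega
    exact_mod_cast this
  refine bridge hΦ N' δ' h1 h2 (1 - 1 / ((2 * k : ℕ) : ℝ) - 1 / ((2 : ℕ) : ℝ)) (2 * k) (k - 2) (by omega) ?_
    (K ^ 2) (one_le_pow₀ h3) ?_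
  · rw [Nat.cast_sub hk]; push_cast; field_simp; ring
  · intro ε hε
    obtain ⟨κ, hκ0, hκ⟩ := h ε hε
    refine ⟨κ, hκ0, ?_⟩
    intro a b c ha hb hab habc hdvd hac
    obtain ⟨u, v, x, k1, k2, k3, k4, k5, k6, k7, k8, _, k9⟩ := h4 a b c ha hb hab habc hdvd hac
    have hv0 : (0 : ℝ) < v := by exact_mod_cast k3
    have hu0 : (u : ℝ) < 0 := by exact_mod_cast k2
    have hF : x ^ (2 * k) - (u - v) ^ 2 = 4 * u * v := by
      rw [mul_comm 2 k, pow_mul, ← k1]; ring
    have hcop : IsCoprime x (u - v) := by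
      have h5 : IsCoprime (u - v) (u + v) := by
        have h6 : IsCoprime u (u + v) := by
          have := k4.add_mul_left_right 1
          rwa [mul_one, add_comm v u] at this
        have h7 : IsCoprime (2 : ℤ) (u + v) := by
          rw [k1, Int.isCoprime_iff_gcd_eq_one]
          have h8 : Odd (x ^ k) := k5.pow
          have := Int.isCoprime_iff_gcd_eq_one.1 (Int.isCoprime_two_left.2 h8)
          exact this
        have h8 : IsCoprime (2 * u) (u + v) := h7.mul_left h6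
        have h9 := h8.add_mul_right_left (-1)
        rwa [show 2 * u + -1 * (u + v) = u - v by ring] at h9
      rw [k1] at h5
      exact (h5.of_isCoprime_of_dvd_right (dvd_pow_self x (by omega))).symm
    have hne : x ^ (2 * k) ≠ (u - v) ^ 2 := by
      intro h5
      rw [h5, sub_self] at hF
      have : 4 * u * v ≠ 0 := mul_ne_zero (mul_ne_zero (by norm_num) k2.ne) k3.ne'
      exact this hF.symm
    have hM : (v : ℝ) ^ 2 ≤ max (|(x : ℝ)| ^ (2 * k)) (|((u - v : ℤ) : ℝ)| ^ 2) := by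
      refine le_trans ?_ (le_max_right _ _)
      rw [sq_abs]
      push_cast
      nlinarith
    refine ⟨max (|(x : ℝ)| ^ (2 * k)) (|((u - v : ℤ) : ℝ)| ^ 2), Φ (4 * u * v).natAbs, ?_, ?_,
      k9.trans ?_⟩
    rotate_left
    · have h5 := hκ x (u - v) hcop hne (by rw [hF]; exact (k6.mul_left 4).mul_right v) (by
        have h6 : (x : ℝ) ^ (2 * k) - ((u - v : ℤ) : ℝ) ^ 2 = 4 * u * v := by exact_mod_cast hF
        rw [h6]
        have h7 : |(4 : ℝ) * u * v| = 4 * |(u : ℝ)| * v := by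
          rw [abs_mul, abs_mul, abs_of_pos hv0]; norm_num
        rw [h7]
        calc 4 * |(u : ℝ)| * v ≤ 4 * (δ / 4 * v) * v :=
              mul_le_mul_of_nonneg_right (mul_le_mul_of_nonneg_left k7 (by norm_num)) hv0.le
          _ = δ * (v : ℝ) ^ 2 := by ring
          _ ≤ _ := mul_le_mul_of_nonneg_left hM hδ.le)
      rw [hF] at h5
      exact h5
    · have h5 : K ≤ K ^ 2 := by nlinarith
      have hR : 0 < Φ (a * b * c) := hΦ.pos _ (by
        have : 0 < c := by omega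
        positivity)
      apply mul_le_mul_of_nonneg_right _ (by positivity)
      exact mul_le_mul_of_nonneg_right h5 hR.le
    · calc (c : ℝ) ^ (2 * k) = ((c : ℝ) ^ k) ^ 2 := by rw [mul_comm, pow_mul]
        _ ≤ (K * v) ^ 2 := pow_le_pow_left₀ (by positivity) k8 2
        _ = K ^ 2 * (v : ℝ) ^ 2 := by ring
        _ ≤ _ := mul_le_mul_of_nonneg_left hM (by positivity)

end Pool.Agent.N757.OH
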