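import Mathlib
import Pool.Agent.N757.OC.Odd
import Pool.Agent.N757.OH.Poly

/-!
# Functions like the radical: from `x ^ q - y ^ 2`, `q` odd, to two cusps
-/

set_option autoImplicit false

namespace Pool.Agent.N757.OH

open Pool.Agent.N757.OC (odd_cover)

theorem oneCusp_odd_twoCusps {Φ : ℕ → ℝ} {A : ℝ} (hΦ : RadLike Φ A) (j : ℕ) (hj : 1 ≤ j) (N : ℕ)
    (δ : ℝ) (hδ : 0 < δ) (h : OneCusp Φ (2 * j + 1) 2 N δ) :
    ∃ δ₁ : ℝ, 0 < δ₁ ∧ TwoCusps Φ (2 * j + 1) (N * ((2 * j + 1) * (2 * j))) δ₁ := by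
  have hA := hΦ.one_le
  have hA0 : 0 < A := by linarith
  obtain ⟨q, hq⟩ : ∃ q : ℝ, q = 2 * j + 1 := ⟨_, rfl⟩
  have hj1 : (1 : ℝ) ≤ j := by exact_mod_cast hj
  have hq3 : 3 ≤ q := by rw [hq]; linarith
  have hq0 : 0 < q := by linarith
  obtain ⟨C, hC⟩ : ∃ C : ℝ, C = 2 * q * 4 ^ j := ⟨_, rfl⟩
  have hC1 : 1 ≤ C := by
    have : (1 : ℝ) ≤ 4 ^ j := one_le_pow₀ (by norm_num)
    rw [hC]; nlinarith
  obtain ⟨δ₁, hδ₁⟩ : ∃ δ₁ : ℝ, δ₁ = min (1 / (2 * q ^ 2)) (δ / (C ^ 2 * 2 ^ (2 * j + 2))) := ⟨_, rfl⟩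
  have hδ₁0 : 0 < δ₁ := by rw [hδ₁]; exact lt_min (by positivity) (by positivity)
  have hδ₁1 : δ₁ ≤ 1 / (2 * q ^ 2) := by rw [hδ₁]; exact min_le_left _ _
  have hδ₁2 : δ₁ ≤ δ / (C ^ 2 * 2 ^ (2 * j + 2)) := by rw [hδ₁]; exact min_le_right _ _
  have hδ₁3 : q ^ 2 * δ₁ ≤ 1 / 2 := by
    calc q ^ 2 * δ₁ ≤ q ^ 2 * (1 / (2 * q ^ 2)) := mul_le_mul_of_nonneg_left hδ₁1 (by positivity)
      _ = 1 / 2 := by field_simp
  have hδ₁4 : δ₁ ≤ 1 / 2 := by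
    have : 1 * δ₁ ≤ q ^ 2 * δ₁ := mul_le_mul_of_nonneg_right (by nlinarith) hδ₁0.le
    linarith
  have hδ₁5 : δ₁ * C ^ 2 * 2 ^ (2 * j + 2) ≤ δ := by
    calc δ₁ * C ^ 2 * 2 ^ (2 * j + 2) ≤ δ / (C ^ 2 * 2 ^ (2 * j + 2)) * C ^ 2 * 2 ^ (2 * j + 2) := by
          gcongr
      _ = δ := by field_simp
  refine ⟨δ₁, hδ₁0, ?_⟩
  intro ε hε
  obtain ⟨θ, hθ⟩ : ∃ θ : ℝ, θ = 1 / 2 - 1 / q := ⟨_, rfl⟩
  have hθ0 : 0 < θ := by
    rw [hθ, sub_pos]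
    exact one_div_lt_one_div_of_lt (by norm_num) (by linarith)
  have hθ1 : θ ≤ 1 := by
    have : 0 < 1 / q := by positivity
    rw [hθ]; linarith
  obtain ⟨ε', hε'⟩ : ∃ ε' : ℝ, ε' = min (ε / (q + 1)) (θ / 2) := ⟨_, rfl⟩
  have hε'0 : 0 < ε' := by rw [hε']; exact lt_min (by positivity) (by positivity)
  have hε'1 : (q + 1) * ε' ≤ ε := by
    have h1 : ε' ≤ ε / (q + 1) := by rw [hε']; exact min_le_left _ _
    rw [le_div_iff₀ (by linarith)] at h1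
    linarith
  have hε'2 : ε' ≤ θ / 2 := by rw [hε']; exact min_le_right _ _
  obtain ⟨κ, hκ0, hκ⟩ := h ε' hε'0
  refine ⟨κ / (2 ^ (2 * j + 2) * (A * C)), by positivity, ?_⟩
  intro u v s huv hu0 hv0 hs hdvd hnear
  obtain ⟨V, hV⟩ : ∃ V : ℝ, V = |(v : ℝ)| := ⟨_, rfl⟩
  have hV1 : 1 ≤ V := by rw [hV]; exact_mod_cast Int.one_le_abs hv0
  have hV0 : 0 < V := by linarith
  rw [← hV] at hnear ⊢
  have hmax : max |(u : ℝ)| V = V := max_eq_right (by nlinarith)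
  rw [hmax]
  have hqu : q ^ 2 * |(u : ℝ)| ≤ V / 2 := by
    calc q ^ 2 * |(u : ℝ)| ≤ q ^ 2 * (δ₁ * V) := mul_le_mul_of_nonneg_left hnear (by positivity)
      _ = q ^ 2 * δ₁ * V := by ring
      _ ≤ 1 / 2 * V := mul_le_mul_of_nonneg_right hδ₁3 hV0.le
      _ = _ := by ring
  have hu2 : |(u : ℝ)| ≤ V / 2 := by
    have : δ₁ * V ≤ 1 / 2 * V := mul_le_mul_of_nonneg_right hδ₁4 hV0.le
    linarith
  have hd1 : ((2 * j + 1) * (2 * j) : ℤ) ∣ u := by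
    refine dvd_trans ⟨(N : ℤ), ?_⟩ hdvd
    push_cast; ring
  have hd2 : (N : ℤ) ∣ u := by
    refine dvd_trans ⟨((2 * j + 1) * (2 * j) : ℤ), ?_⟩ hdvd
    push_cast; ring
  obtain ⟨x, H, hcop, hH0, hHb, hmain⟩ := odd_cover j hj u v s huv hv0 hs hd1 (by
    have h1 : (2 * j + 1 : ℝ) ^ 2 * |(u : ℝ)| ≤ |(v : ℝ)| := by rw [← hq, ← hV]; linarith
    exact_mod_cast h1)
  obtain ⟨y, hy⟩ : ∃ y : ℤ, y = ((2 * j + 1 : ℤ) ^ 2 * u + v) * s := ⟨_, rfl⟩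
  rw [← hy] at hcop hmain
  have hF0 : u * v * (v * H) ^ 2 ≠ 0 :=
    mul_ne_zero (mul_ne_zero hu0 hv0) (pow_ne_zero 2 (mul_ne_zero hv0 hH0))
  have hne : y ^ (2 * j + 1) ≠ x ^ 2 := by
    intro h1
    rw [h1, sub_self] at hmain
    exact hF0 hmain.symm
  -- lower bound for `y`
  have hyR : (V / 2) ^ (2 * j + 2) ≤ |(y : ℝ)| ^ (2 * j + 1) := by
    have h1 : V / 2 ≤ |q ^ 2 * (u : ℝ) + v| := by
      have h2 := abs_sub_abs_le_abs_sub (v : ℝ) (-(q ^ 2 * u))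
      rw [abs_neg, abs_mul, abs_of_nonneg (by positivity : (0 : ℝ) ≤ q ^ 2), sub_neg_eq_add,
        ← hV] at h2
      rw [add_comm]
      linarith
    have h3 : V / 2 ≤ |(s : ℝ)| ^ (2 * j + 1) := by
      rw [← abs_pow]
      have h2 : (s : ℝ) ^ (2 * j + 1) = v - (-u) := by
        have h6 : (u : ℝ) + v = (s : ℝ) ^ (2 * j + 1) := by exact_mod_cast hs
        linarith
      have h4 := abs_sub_abs_le_abs_sub (v : ℝ) (-u)
      rw [abs_neg, ← h2, ← hV] at h4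
      linarith
    have h5 : (y : ℝ) = (q ^ 2 * u + v) * s := by rw [hy, hq]; push_cast; ring
    rw [h5, abs_mul, mul_pow]
    calc (V / 2) ^ (2 * j + 2) = (V / 2) ^ (2 * j + 1) * (V / 2) := by ring
      _ ≤ _ := mul_le_mul (pow_le_pow_left₀ (by positivity) h1 _) h3 (by positivity) (by positivity)
  obtain ⟨M, hM⟩ : ∃ M : ℝ, M = max (|(y : ℝ)| ^ (2 * j + 1)) (|(x : ℝ)| ^ 2) := ⟨_, rfl⟩
  have hMV : (V / 2) ^ (2 * j + 2) ≤ M := by rw [hM]; exact hyR.trans (le_max_left _ _)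
  -- upper bound for `H`
  have hHR : |(H : ℝ)| * V ≤ C * V ^ j := by
    have h1 : |(H : ℝ)| * |(v : ℝ)| ≤ 2 * (2 * j + 1) * (4 ^ j * |(v : ℝ)| ^ j) := by exact_mod_cast hHb
    rw [← hV, ← hq] at h1
    rw [hC]
    linarith
  have hFR : |(y : ℝ) ^ (2 * j + 1) - (x : ℝ) ^ 2| ≤ δ * M := by
    have h1 : (y : ℝ) ^ (2 * j + 1) - (x : ℝ) ^ 2 = u * v * (v * H) ^ 2 := by exact_mod_cast hmain
    rw [h1, abs_mul, abs_mul, abs_pow, abs_mul, ← hV]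
    calc |(u : ℝ)| * V * (V * |(H : ℝ)|) ^ 2 ≤ (δ₁ * V) * V * (C * V ^ j) ^ 2 := by
          have e1 : V * |(H : ℝ)| ≤ C * V ^ j := by linarith
          exact mul_le_mul (mul_le_mul_of_nonneg_right hnear hV0.le)
            (pow_le_pow_left₀ (by positivity) e1 2) (by positivity) (by positivity)
      _ = (δ₁ * C ^ 2 * 2 ^ (2 * j + 2)) * (V / 2) ^ (2 * j + 2) := by
          rw [div_pow]; field_simp; ring
      _ ≤ δ * M := mul_le_mul hδ₁5 hMV (by positivity) hδ.le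
  have key := hκ y x hcop hne (by rw [hmain]; exact (hd2.mul_right v).mul_right _) (by
    rw [← hM]; exact hFR)
  rw [← hM, hmain] at key
  -- the radical
  have hR0 : 0 < Φ (u * v).natAbs := hΦ.pos _ (Int.natAbs_ne_zero.2 (mul_ne_zero hu0 hv0))
  have hRR : Φ (u * v * (v * H) ^ 2).natAbs ≤ A * Φ (u * v).natAbs * |(H : ℝ)| :=
    phi_bound hΦ (mul_ne_zero hu0 hv0) hF0 hH0 (fun ℓ _ hd => hd.mul_right _) (fun ℓ hℓ hd => by
      rcases hℓ.dvd_or_dvd hd with h2 | h2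
      · exact h2.mul_right _
      · rcases hℓ.dvd_or_dvd (hℓ.dvd_of_dvd_pow h2) with h3 | h3
        · exact (h3.mul_left u).mul_right _
        · exact h3.mul_left _)
  have hθε : 0 < θ - ε' := by linarith
  have hexp : 1 - 1 / (((2 * j + 1 : ℕ) : ℝ)) - 1 / ((2 : ℕ) : ℝ) - ε' = θ - ε' := by
    rw [hθ, hq]; push_cast; ring
  rw [hexp] at key
  have h1 : κ * ((V / 2) ^ (2 * j + 2)) ^ (θ - ε') * V ≤ Φ (u * v).natAbs * (A * C * V ^ j) := by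
    calc κ * ((V / 2) ^ (2 * j + 2)) ^ (θ - ε') * V ≤ κ * M ^ (θ - ε') * V := by
          gcongr
      _ ≤ (A * Φ (u * v).natAbs * |(H : ℝ)|) * V := mul_le_mul_of_nonneg_right (key.trans hRR) hV0.le
      _ = A * Φ (u * v).natAbs * (|(H : ℝ)| * V) := by ring
      _ ≤ A * Φ (u * v).natAbs * (C * V ^ j) := mul_le_mul_of_nonneg_left hHR (by positivity)
      _ = _ := by ring
  have h2 : ((V / 2) ^ (2 * j + 2)) ^ (θ - ε') =
      V ^ ((2 * j + 2) * (θ - ε')) / 2 ^ ((2 * j + 2) * (θ - ε')) := by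
    rw [← Real.rpow_natCast, ← Real.rpow_mul (by positivity), Real.div_rpow hV0.le (by norm_num)]
    push_cast
    rfl
  have h3 : (2 : ℝ) ^ ((2 * j + 2) * (θ - ε')) ≤ 2 ^ (2 * j + 2) := by
    rw [← Real.rpow_natCast 2 (2 * j + 2)]
    refine Real.rpow_le_rpow_of_exponent_le (by norm_num) ?_
    push_cast
    have : (2 * (j : ℝ) + 2) * (θ - ε') ≤ (2 * (j : ℝ) + 2) * 1 :=
      mul_le_mul_of_nonneg_left (by linarith) (by linarith)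
    linarith
  have hP0 : 0 < (2 : ℝ) ^ ((2 * j + 2) * (θ - ε')) := Real.rpow_pos_of_pos (by norm_num) _
  have h4 : κ * V ^ ((2 * j + 2) * (θ - ε')) * V ≤
      (2 ^ (2 * j + 2) * (A * C)) * (Φ (u * v).natAbs * V ^ j) := by
    rw [h2] at h1
    have h5 : κ * V ^ ((2 * j + 2) * (θ - ε')) * V =
        2 ^ ((2 * j + 2) * (θ - ε')) *
          (κ * (V ^ ((2 * j + 2) * (θ - ε')) / 2 ^ ((2 * j + 2) * (θ - ε'))) * V) := by
      field_simp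
    rw [h5]
    calc _ ≤ 2 ^ ((2 * j + 2) * (θ - ε')) * (Φ (u * v).natAbs * (A * C * V ^ j)) :=
          mul_le_mul_of_nonneg_left h1 hP0.le
      _ ≤ 2 ^ (2 * j + 2) * (Φ (u * v).natAbs * (A * C * V ^ j)) :=
          mul_le_mul_of_nonneg_right h3 (by positivity)
      _ = _ := by ring
  have h5 : V ^ (1 - 1 / (((2 * j + 1 : ℕ) : ℝ)) - ε) * V ^ j ≤ V ^ ((2 * j + 2) * (θ - ε')) * V := by
    have e1 : V ^ ((2 * j + 2) * (θ - ε')) * V = V ^ ((2 * j + 2) * (θ - ε') + 1) := by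
      rw [Real.rpow_add hV0, Real.rpow_one]
    rw [e1, ← Real.rpow_natCast V j, ← Real.rpow_add hV0]
    refine Real.rpow_le_rpow_of_exponent_le hV1 ?_
    have e2 : (2 * (j : ℝ) + 2) * (θ - ε') + 1 = (2 * j + 2) * θ + 1 - (q + 1) * ε' := by
      rw [hq]; ring
    have e3 : (2 * (j : ℝ) + 2) * θ + 1 = 1 - 1 / q + j := by
      rw [hθ]
      have : (j : ℝ) = (q - 1) / 2 := by rw [hq]; ring
      rw [this]
      field_simp
      ring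
    have e4 : (((2 * j + 1 : ℕ) : ℝ)) = q := by rw [hq]; push_cast; ring
    rw [e2, e3, e4]
    linarith
  have hVj : 0 < V ^ j := by positivity
  have h6 : (κ / (2 ^ (2 * j + 2) * (A * C)) * V ^ (1 - 1 / (((2 * j + 1 : ℕ) : ℝ)) - ε)) * V ^ j ≤
      Φ (u * v).natAbs * V ^ j := by
    calc (κ / (2 ^ (2 * j + 2) * (A * C)) * V ^ (1 - 1 / (((2 * j + 1 : ℕ) : ℝ)) - ε)) * V ^ j
        = κ / (2 ^ (2 * j + 2) * (A * C)) * (V ^ (1 - 1 / (((2 * j + 1 : ℕ) : ℝ)) - ε) * V ^ j) := by ring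
      _ ≤ κ / (2 ^ (2 * j + 2) * (A * C)) * (V ^ ((2 * j + 2) * (θ - ε')) * V) :=
          mul_le_mul_of_nonneg_left h5 (by positivity)
      _ = (κ * V ^ ((2 * j + 2) * (θ - ε')) * V) / (2 ^ (2 * j + 2) * (A * C)) := by ring
      _ ≤ ((2 ^ (2 * j + 2) * (A * C)) * (Φ (u * v).natAbs * V ^ j)) / (2 ^ (2 * j + 2) * (A * C)) := by
          gcongr
      _ = _ := by field_simp
  exact le_of_mul_le_mul_right h6 hVj

theorem oneCusp_odd_abc {Φ : ℕ → ℝ} {A : ℝ} (hΦ : RadLike Φ A) (j : ℕ) (hj : 1 ≤ j) (N : ℕ)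
    (hN : 1 ≤ N) (δ : ℝ) (hδ : 0 < δ) (h : OneCusp Φ (2 * j + 1) 2 N δ) : ABC Φ := by
  obtain ⟨δ₁, hδ₁, h1⟩ := oneCusp_odd_twoCusps hΦ j hj N δ hδ h
  exact twoCusps_abc hΦ (2 * j + 1) (by omega) _
    (Nat.mul_pos (by omega) (Nat.mul_pos (by omega) (by omega))) δ₁ hδ₁ h1

/-- all signatures `(k, 2)` with `k ≥ 3` -/
theorem oneCusp_two_abc {Φ : ℕ → ℝ} {A : ℝ} (hΦ : RadLike Φ A) (k : ℕ) (hk : 3 ≤ k) (N : ℕ)
    (hN : 1 ≤ N) (δ : ℝ) (hδ : 0 < δ) (h : OneCusp Φ k 2 N δ) : ABC Φ := by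
  rcases Nat.even_or_odd' k with ⟨i, rfl | rfl⟩
  · exact oneCusp_even_abc hΦ i (by omega) N hN δ hδ h
  · exact oneCusp_odd_abc hΦ i (by omega) N hN δ hδ h

end Pool.Agent.N757.OH
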