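import Mathlib
import Pool.Agent.N757.OH.Odd
import Pool.Agent.N757.OC.Mean

/-!
# Functions like the radical: the weighted arithmetic and geometric means
-/

set_option autoImplicit false

namespace Pool.Agent.N757.OH

open Pool.Agent.N757.OC (GG GG_spec GG_bound GG_ne_zero)

/-- **Transfer of radical inequalities along a map.** -/
theorem oneCusp_transfer {Φ : ℕ → ℝ} {A : ℝ} (hΦ : RadLike Φ A) (p q P Q N₁ N s : ℕ) (δ₁ δ C : ℝ)
    (hC : 1 ≤ C)
    (hθ : 0 < 1 - 1 / (P : ℝ) - 1 / (Q : ℝ))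
    (hexp : (s : ℝ) * (1 - 1 / (P : ℝ) - 1 / (Q : ℝ)) = s - 2 + (1 - 1 / (p : ℝ) - 1 / (q : ℝ)))
    (hs : 1 ≤ s) (h : OneCusp Φ P Q N δ)
    (hmap : ∀ x y : ℤ, IsCoprime x y → x ^ p ≠ y ^ q → (N₁ : ℤ) ∣ x ^ p - y ^ q → ∀ M : ℝ, 1 ≤ M →
      M = max (|(x : ℝ)| ^ p) (|(y : ℝ)| ^ q) → |(x : ℝ) ^ p - (y : ℝ) ^ q| ≤ δ₁ * M →
      ∃ X Y : ℤ, IsCoprime X Y ∧ X ^ P ≠ Y ^ Q ∧ (N : ℤ) ∣ X ^ P - Y ^ Q ∧
        |(X : ℝ) ^ P - (Y : ℝ) ^ Q| ≤ δ * max (|(X : ℝ)| ^ P) (|(Y : ℝ)| ^ Q) ∧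
        M ^ s ≤ C * max (|(X : ℝ)| ^ P) (|(Y : ℝ)| ^ Q) ∧
        Φ (X ^ P - Y ^ Q).natAbs * M ^ 2 ≤ C * Φ (x ^ p - y ^ q).natAbs * M ^ s) :
    OneCusp Φ p q N₁ δ₁ := by
  intro ε hε
  obtain ⟨θ, hθe⟩ : ∃ θ : ℝ, θ = 1 - 1 / (P : ℝ) - 1 / (Q : ℝ) := ⟨_, rfl⟩
  rw [← hθe] at hθ hexp
  have hθ1 : θ ≤ 1 := by
    have h1 : 0 ≤ 1 / (P : ℝ) := by positivity
    have h2 : 0 ≤ 1 / (Q : ℝ) := by positivity
    rw [hθe]; linarith
  have hs1 : (1 : ℝ) ≤ s := by exact_mod_cast hs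
  obtain ⟨ε', hε'⟩ : ∃ ε' : ℝ, ε' = min (ε / s) (θ / 2) := ⟨_, rfl⟩
  have hε'0 : 0 < ε' := by rw [hε']; exact lt_min (by positivity) (by positivity)
  have hε'1 : s * ε' ≤ ε := by
    have h1 : ε' ≤ ε / s := by rw [hε']; exact min_le_left _ _
    rw [le_div_iff₀ (by linarith)] at h1
    linarith
  have hε'2 : ε' ≤ θ / 2 := by rw [hε']; exact min_le_right _ _
  obtain ⟨κ, hκ0, hκ⟩ := h ε' hε'0
  refine ⟨κ / C ^ 2, by positivity, ?_⟩
  intro x y hxy hne hdvd hnear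
  obtain ⟨M, hM⟩ : ∃ M : ℝ, M = max (|(x : ℝ)| ^ p) (|(y : ℝ)| ^ q) := ⟨_, rfl⟩
  rw [← hM] at hnear ⊢
  have hM1 : 1 ≤ M := by
    rw [hM]
    by_cases hx0 : x = 0
    · have hy : IsUnit y := by
        rw [hx0] at hxy
        exact isCoprime_zero_left.1 hxy
      refine le_trans ?_ (le_max_right _ _)
      rcases Int.isUnit_iff.1 hy with h | h <;> simp [h]
    · refine le_trans ?_ (le_max_left _ _)
      exact one_le_pow₀ (by exact_mod_cast Int.one_le_abs hx0)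
  have hM0 : 0 < M := by linarith
  obtain ⟨X, Y, hXY, hXne, hXd, hXn, hXM, hXR⟩ := hmap x y hxy hne hdvd M hM1 hM hnear
  have key := hκ X Y hXY hXne hXd hXn
  obtain ⟨M', hM'⟩ : ∃ M' : ℝ, M' = max (|(X : ℝ)| ^ P) (|(Y : ℝ)| ^ Q) := ⟨_, rfl⟩
  rw [← hM', ← hθe] at key
  rw [← hM'] at hXM
  have hθε : 0 < θ - ε' := by linarith
  have h1 : M ^ s / C ≤ M' := by
    rw [div_le_iff₀ (by linarith)]; linarith
  have h2 : κ * (M ^ s / C) ^ (θ - ε') * M ^ 2 ≤ C * Φ (x ^ p - y ^ q).natAbs * M ^ s := by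
    calc κ * (M ^ s / C) ^ (θ - ε') * M ^ 2 ≤ κ * M' ^ (θ - ε') * M ^ 2 := by gcongr
      _ ≤ Φ (X ^ P - Y ^ Q).natAbs * M ^ 2 := mul_le_mul_of_nonneg_right key (by positivity)
      _ ≤ _ := hXR
  have h3 : (M ^ s / C) ^ (θ - ε') = M ^ (s * (θ - ε')) / C ^ (θ - ε') := by
    rw [Real.div_rpow (by positivity) (by linarith), ← Real.rpow_natCast M s,
      ← Real.rpow_mul hM0.le]
  have h4 : C ^ (θ - ε') ≤ C := by
    calc C ^ (θ - ε') ≤ C ^ (1 : ℝ) := Real.rpow_le_rpow_of_exponent_le hC (by linarith)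
      _ = C := Real.rpow_one C
  have hC0 : 0 < C := by linarith
  have hCp : 0 < C ^ (θ - ε') := Real.rpow_pos_of_pos hC0 _
  have hR0 : 0 < Φ (x ^ p - y ^ q).natAbs := hΦ.pos _ (Int.natAbs_ne_zero.2 (sub_ne_zero.2 hne))
  have h5 : κ * M ^ (s * (θ - ε')) * M ^ 2 ≤ C ^ 2 * (Φ (x ^ p - y ^ q).natAbs * M ^ s) := by
    rw [h3] at h2
    have e : κ * M ^ (s * (θ - ε')) * M ^ 2 =
        C ^ (θ - ε') * (κ * (M ^ (s * (θ - ε')) / C ^ (θ - ε')) * M ^ 2) := by field_simp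
    rw [e]
    calc _ ≤ C ^ (θ - ε') * (C * Φ (x ^ p - y ^ q).natAbs * M ^ s) :=
          mul_le_mul_of_nonneg_left h2 hCp.le
      _ ≤ C * (C * Φ (x ^ p - y ^ q).natAbs * M ^ s) :=
          mul_le_mul_of_nonneg_right h4 (by positivity)
      _ = _ := by ring
  have h6 : M ^ (1 - 1 / (p : ℝ) - 1 / (q : ℝ) - ε) * M ^ s ≤ M ^ (s * (θ - ε')) * M ^ 2 := by
    rw [← Real.rpow_natCast M s, ← Real.rpow_natCast M 2, ← Real.rpow_add hM0,
      ← Real.rpow_add hM0]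
    refine Real.rpow_le_rpow_of_exponent_le hM1 ?_
    push_cast
    linarith
  have hMs : 0 < M ^ s := by positivity
  have h7 : (κ / C ^ 2 * M ^ (1 - 1 / (p : ℝ) - 1 / (q : ℝ) - ε)) * M ^ s ≤
      Φ (x ^ p - y ^ q).natAbs * M ^ s := by
    calc (κ / C ^ 2 * M ^ (1 - 1 / (p : ℝ) - 1 / (q : ℝ) - ε)) * M ^ s
        = κ / C ^ 2 * (M ^ (1 - 1 / (p : ℝ) - 1 / (q : ℝ) - ε) * M ^ s) := by ring
      _ ≤ κ / C ^ 2 * (M ^ (s * (θ - ε')) * M ^ 2) := mul_le_mul_of_nonneg_left h6 (by positivity)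
      _ = (κ * M ^ (s * (θ - ε')) * M ^ 2) / C ^ 2 := by ring
      _ ≤ (C ^ 2 * (Φ (x ^ p - y ^ q).natAbs * M ^ s)) / C ^ 2 := by gcongr
      _ = _ := by field_simp
  exact le_of_mul_le_mul_right h7 hMs

/-- the value at `d² G` when `d ∣ F` and every prime dividing `F` divides `d` -/
theorem phi_sq_mul {Φ : ℕ → ℝ} {A : ℝ} (hΦ : RadLike Φ A) {F d G : ℤ} (hF : F ≠ 0) (hd0 : d ≠ 0)
    (hG : G ≠ 0) (hd : d ∣ F) (hFd : ∀ ℓ : ℤ, Prime ℓ → ℓ ∣ F → ℓ ∣ d) :
    Φ (d ^ 2 * G).natAbs ≤ A * Φ F.natAbs * |(G : ℝ)| :=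
  phi_bound hΦ hF (mul_ne_zero (pow_ne_zero 2 hd0) hG) hG
    (fun ℓ hℓ h => (dvd_pow (hFd ℓ hℓ h) two_ne_zero).mul_right _) (fun ℓ hℓ h => by
      rcases hℓ.dvd_or_dvd h with h2 | h2
      · exact ((hℓ.dvd_of_dvd_pow h2).trans hd).mul_right _
      · exact h2.mul_left _)

/-- **First rule.** If `p a = q b = L`, the inequality for `(a + b, L)` implies that for `(p, q)`:
`X = (a x ^ p + b y ^ q) / (a + b)`, `Y = x y`. -/
theorem oneCusp_mean {Φ : ℕ → ℝ} {A : ℝ} (hΦ : RadLike Φ A) (a b p q L N : ℕ) (ha : 1 ≤ a) (hb : 1 ≤ b) (hp : 1 ≤ p) (hq : 1 ≤ q)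
    (hpa : p * a = L) (hqb : q * b = L) (hL : 3 ≤ L) (δ : ℝ) (hδ : 0 < δ)
    (h : OneCusp Φ (a + b) L N δ) :
    ∃ δ₁ : ℝ, 0 < δ₁ ∧ OneCusp Φ p q (N * ((a + b) * (2 * ((a + b) * a * b)))) δ₁ := by
  have hA := hΦ.one_le
  have hA0 : 0 < A := by linarith
  obtain ⟨s, hs⟩ : ∃ s : ℝ, s = a + b := ⟨_, rfl⟩
  have ha1 : (1 : ℝ) ≤ a := by exact_mod_cast ha
  have hb1 : (1 : ℝ) ≤ b := by exact_mod_cast hb
  have hs2 : 2 ≤ s := by rw [hs]; linarith
  have hp0 : (0 : ℝ) < p := by exact_mod_cast hp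
  have hq0 : (0 : ℝ) < q := by exact_mod_cast hq
  have hL0 : (0 : ℝ) < L := by exact_mod_cast (by omega : 0 < L)
  obtain ⟨C, hC⟩ : ∃ C : ℝ, C = 2 ^ (a + b) + A * (2 * a ^ 2 * s ^ 2) := ⟨_, rfl⟩
  have h2s : (1 : ℝ) ≤ 2 ^ (a + b) := one_le_pow₀ (by norm_num)
  have hC1 : 1 ≤ C := by
    have : 0 ≤ A * (2 * (a : ℝ) ^ 2 * s ^ 2) := by positivity
    rw [hC]; linarith
  have hC4 : A * (2 * (a : ℝ) ^ 2 * s ^ 2) ≤ C := by rw [hC]; linarith
  have hC2 : 2 * (a : ℝ) ^ 2 * s ^ 2 ≤ C := by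
    refine le_trans ?_ hC4
    have : 1 * (2 * (a : ℝ) ^ 2 * s ^ 2) ≤ A * (2 * (a : ℝ) ^ 2 * s ^ 2) :=
      mul_le_mul_of_nonneg_right hA (by positivity)
    linarith
  have hC3 : (2 : ℝ) ^ (a + b) ≤ C := by
    have : 0 ≤ A * (2 * (a : ℝ) ^ 2 * s ^ 2) := by positivity
    rw [hC]; linarith
  obtain ⟨δ₁, hδ₁⟩ : ∃ δ₁ : ℝ, δ₁ = min (1 / 2) (δ / C ^ 2) := ⟨_, rfl⟩
  have hδ₁0 : 0 < δ₁ := by rw [hδ₁]; exact lt_min (by positivity) (by positivity)
  have hδ₁1 : δ₁ ≤ 1 / 2 := by rw [hδ₁]; exact min_le_left _ _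
  have hδ₁2 : δ₁ * C ^ 2 ≤ δ := by
    have : δ₁ ≤ δ / C ^ 2 := by rw [hδ₁]; exact min_le_right _ _
    rwa [le_div_iff₀ (by positivity)] at this
  refine ⟨δ₁, hδ₁0, ?_⟩
  have epa : (p : ℝ) * a = L := by exact_mod_cast hpa
  have eqb : (q : ℝ) * b = L := by exact_mod_cast hqb
  have hcast : ((a + b : ℕ) : ℝ) = s := by rw [hs]; push_cast; ring
  refine oneCusp_transfer hΦ p q (a + b) L _ N (a + b) δ₁ δ C hC1 ?_ ?_ (by omega) h ?_
  · rw [hcast]
    have h1 : 1 / s ≤ 1 / 2 := one_div_le_one_div_of_le (by norm_num) hs2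
    have h2 : 1 / (L : ℝ) ≤ 1 / 3 := one_div_le_one_div_of_le (by norm_num) (by exact_mod_cast hL)
    linarith
  · rw [hcast]
    have h1 : s * (1 / (L : ℝ)) = 1 / p + 1 / q := by
      rw [hs]
      have e1 : (a : ℝ) = L / p := by field_simp; linarith
      have e2 : (b : ℝ) = L / q := by field_simp; linarith
      rw [e1, e2]
      field_simp
    have h2 : s * (1 / s) = 1 := by field_simp
    linear_combination -h2 - h1
  · intro x y hxy hne hdvd M hM1 hM hnear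
    have hM0 : 0 < M := by linarith
    obtain ⟨w, hw⟩ : ∃ w : ℤ, w = y ^ q := ⟨_, rfl⟩
    obtain ⟨d₁, hd₁⟩ := hdvd
    obtain ⟨d, hd⟩ : ∃ d : ℤ, d = N * (2 * (((a : ℤ) + b) * a * b)) * d₁ := ⟨_, rfl⟩
    have hF : x ^ p - y ^ q = (a + b) * d := by rw [hd₁, hd]; push_cast; ring
    have hu : x ^ p = w + (a + b) * d := by rw [hw]; linarith
    have hd2 : (2 * (((a : ℤ) + b) * a * b)) ∣ d := ⟨N * d₁, by rw [hd]; ring⟩
    have hdF : d ∣ x ^ p - y ^ q := by rw [hF]; exact Dvd.intro_left _ rfl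
    have hF0 : x ^ p - y ^ q ≠ 0 := sub_ne_zero.2 hne
    have huw : IsCoprime (x ^ p) w := by rw [hw]; exact hxy.pow
    have hwd : IsCoprime w d := by
      have h1 : IsCoprime w ((a + b) * d) := by
        have h2 := huw.symm
        rw [hu] at h2
        have h3 := h2.add_mul_left_right (-1)
        rwa [show w + (↑a + ↑b) * d + w * -1 = (↑a + ↑b) * d by ring] at h3
      exact h1.of_mul_right_right
    have hud : IsCoprime (x ^ p) d := by
      have h1 : IsCoprime (x ^ p) ((a + b) * d) := by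
        have h3 := huw.neg_right.add_mul_left_right 1
        rwa [show -w + x ^ p * 1 = (↑a + ↑b) * d by rw [hu]; ring] at h3
      exact h1.of_mul_right_right
    have had : IsCoprime (x ^ p) (b * d) := by
      have : (b : ℤ) ∣ d := dvd_trans ⟨2 * ((a + b) * a), by ring⟩ hd2
      exact (hud.of_isCoprime_of_dvd_right this).mul_right hud
    have hbd : IsCoprime w (a * d) := by
      have : (a : ℤ) ∣ d := dvd_trans ⟨2 * ((a + b) * b), by ring⟩ hd2
      exact (hwd.of_isCoprime_of_dvd_right this).mul_right hwd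
    obtain ⟨G, hG⟩ : ∃ G : ℤ, G = GG a b w d := ⟨_, rfl⟩
    have hG0 : G ≠ 0 := by rw [hG]; exact GG_ne_zero ha hb hwd hd2
    have hd0 : d ≠ 0 := by
      intro h0
      rw [h0, mul_zero] at hF
      exact hF0 hF
    have hmain : (w + a * d) ^ (a + b) - (x * y) ^ L = d ^ 2 * G := by
      have h1 := GG_spec a b ha w d
      have h2 : (x * y) ^ L = (w + (a + b) * d) ^ a * w ^ b := by
        rw [← hu, hw, ← pow_mul, ← pow_mul, hpa, hqb, mul_pow]
      rw [h2, hG]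
      exact h1
    -- sizes
    have hwM : |(w : ℝ)| ≤ M := by
      rw [hw, hM]; push_cast; rw [abs_pow]; exact le_max_right _ _
    have huM : |(w : ℝ) + s * d| ≤ M := by
      have : (w : ℝ) + s * d = x ^ p := by rw [hs]; exact_mod_cast hu.symm
      rw [this, hM, abs_pow]; exact le_max_left _ _
    have hsd : s * |(d : ℝ)| ≤ δ₁ * M := by
      have h1 : (x : ℝ) ^ p - (y : ℝ) ^ q = s * d := by rw [hs]; exact_mod_cast hF
      rw [h1, abs_mul, abs_of_pos (by linarith)] at hnear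
      exact hnear
    have hXM : |(w : ℝ) + a * d| ≤ M := by
      have e : (w : ℝ) + a * d = (b / s) * w + (a / s) * (w + s * d) := by
        rw [hs]; field_simp; ring
      rw [e]
      calc |b / s * (w : ℝ) + a / s * (w + s * d)| ≤ |b / s * (w : ℝ)| + |a / s * (w + s * d)| :=
            abs_add_le _ _
        _ = b / s * |(w : ℝ)| + a / s * |(w : ℝ) + s * d| := by
            rw [abs_mul, abs_mul, abs_of_pos (by positivity : 0 < b / s),
              abs_of_pos (by positivity : 0 < a / s)]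
        _ ≤ b / s * M + a / s * M := by gcongr
        _ = M := by rw [hs]; field_simp; ring
    have hXlow : M / 2 ≤ |(w : ℝ) + a * d| := by
      have h3 : δ₁ * M ≤ M / 2 := by
        have := mul_le_mul_of_nonneg_right hδ₁1 hM0.le
        linarith
      have hadd : (a : ℝ) * |(d : ℝ)| ≤ s * |(d : ℝ)| := by
        apply mul_le_mul_of_nonneg_right _ (abs_nonneg _)
        rw [hs]; linarith
      have hbdd : (b : ℝ) * |(d : ℝ)| ≤ s * |(d : ℝ)| := by
        apply mul_le_mul_of_nonneg_right _ (abs_nonneg _)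
        rw [hs]; linarith
      rcases max_cases (|(x : ℝ)| ^ p) (|(y : ℝ)| ^ q) with ⟨h1, -⟩ | ⟨h1, -⟩
      · -- `M = |x ^ p|`
        have h2 : M = |(w : ℝ) + s * d| := by
          rw [hM, h1, ← abs_pow]
          congr 1
          rw [hs]; exact_mod_cast hu
        have h4 := abs_sub_abs_le_abs_sub ((w : ℝ) + s * d) (b * d)
        rw [← h2, abs_mul, abs_of_pos (by linarith : (0 : ℝ) < b)] at h4
        have e : (w : ℝ) + s * d - b * d = w + a * d := by rw [hs]; ring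
        rw [e] at h4
        linarith
      · have h2 : M = |(w : ℝ)| := by
          rw [hM, h1, ← abs_pow]
          congr 1
          exact_mod_cast hw.symm
        have h4 := abs_sub_abs_le_abs_sub (w : ℝ) (-(a * d))
        rw [← h2, abs_neg, abs_mul, abs_of_pos (by linarith : (0 : ℝ) < a), sub_neg_eq_add] at h4
        linarith
    have hGM : |(G : ℝ)| * M ^ 2 ≤ 2 * a ^ 2 * s ^ 2 * M ^ (a + b) := by
      obtain ⟨B, hB⟩ : ∃ B : ℤ, B = max |x| 0 := ⟨_, rfl⟩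
      have hint : ∃ Mi : ℤ, (Mi : ℝ) = M := by
        rcases max_cases (|(x : ℝ)| ^ p) (|(y : ℝ)| ^ q) with ⟨h1, -⟩ | ⟨h1, -⟩
        · exact ⟨|x| ^ p, by rw [hM, h1]; push_cast; rfl⟩
        · exact ⟨|y| ^ q, by rw [hM, h1]; push_cast; rfl⟩
      obtain ⟨Mi, hMi⟩ := hint
      have h1 := GG_bound a b w d Mi (by rw [← hMi] at hwM; exact_mod_cast hwM)
        (by rw [← hMi] at hXM; exact_mod_cast hXM)
        (by rw [← hMi, hs] at huM; exact_mod_cast huM)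
      rw [← hG] at h1
      rw [← hMi, hs]
      exact_mod_cast h1
    refine ⟨w + a * d, x * y, ?_, ?_, ?_, ?_, ?_, ?_⟩
    · -- coprime
      have h1 : IsCoprime (w + a * d) x := by
        have h2 : IsCoprime x (w + a * d) := by
          by_contra hcon
          obtain ⟨ℓ, hℓ, h3, h4⟩ : ∃ ℓ : ℤ, Prime ℓ ∧ ℓ ∣ x ∧ ℓ ∣ w + a * d := by
            by_contra h5
            push Not at h5
            refine hcon (isCoprime_of_prime_dvd ?_ fun z hz hzx hzy => h5 z hz hzx hzy)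
            rintro ⟨hx0, hy0⟩
            have h6 := h5 2 Int.prime_two (by rw [hx0]; exact dvd_zero 2)
            rw [hy0] at h6
            exact h6 (dvd_zero 2)
          have h5 : ℓ ∣ x ^ p := h3.trans (dvd_pow_self _ (by omega))
          have h6 : ℓ ∣ b * d := by
            have := dvd_sub h5 h4
            rwa [hu, show w + (↑a + ↑b) * d - (w + ↑a * d) = b * d by ring] at this
          exact hℓ.not_unit (had.isUnit_of_dvd' h5 h6)
        exact h2.symm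
      have h2 : IsCoprime (w + a * d) y := by
        have h3 : IsCoprime (a * d + w * 1) w := (hbd.symm.add_mul_left_left 1)
        rw [mul_one, add_comm, hw] at h3
        rw [hw]
        exact (IsCoprime.pow_right_iff (by omega)).1 h3
      exact h1.mul_right h2
    · intro h1
      rw [h1, sub_self] at hmain
      exact mul_ne_zero (pow_ne_zero 2 hd0) hG0 hmain.symm
    · rw [hmain]
      exact (((Dvd.intro _ rfl : (N : ℤ) ∣ N * (2 * (((a : ℤ) + b) * a * b) * d₁)).trans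
        (by rw [hd]; exact ⟨1, by ring⟩)).trans (dvd_pow_self d (by norm_num))).mul_right G
    · have h1 : ((w + a * d : ℤ) : ℝ) ^ (a + b) - ((x * y : ℤ) : ℝ) ^ L = d ^ 2 * G := by
        exact_mod_cast hmain
      rw [h1, abs_mul, abs_pow]
      have h2 : M ^ (a + b) ≤ 2 ^ (a + b) * max (|((w + a * d : ℤ) : ℝ)| ^ (a + b))
          (|((x * y : ℤ) : ℝ)| ^ L) := by
        have h3 : (M / 2) ^ (a + b) ≤ |((w + a * d : ℤ) : ℝ)| ^ (a + b) := by
          push_cast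
          exact pow_le_pow_left₀ (by positivity) hXlow _
        rw [div_pow, div_le_iff₀ (by positivity)] at h3
        calc M ^ (a + b) ≤ |((w + a * d : ℤ) : ℝ)| ^ (a + b) * 2 ^ (a + b) := h3
          _ ≤ _ := by rw [mul_comm]; exact mul_le_mul_of_nonneg_left (le_max_left _ _) (by positivity)
      have h4 : |(d : ℝ)| ≤ δ₁ * M := by
        have : 1 * |(d : ℝ)| ≤ s * |(d : ℝ)| := mul_le_mul_of_nonneg_right (by linarith) (abs_nonneg _)
        linarith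
      calc |(d : ℝ)| ^ 2 * |(G : ℝ)| ≤ (δ₁ * M) ^ 2 * |(G : ℝ)| :=
            mul_le_mul_of_nonneg_right (pow_le_pow_left₀ (abs_nonneg _) h4 2) (abs_nonneg _)
        _ = δ₁ ^ 2 * (|(G : ℝ)| * M ^ 2) := by ring
        _ ≤ δ₁ ^ 2 * (2 * a ^ 2 * s ^ 2 * M ^ (a + b)) := mul_le_mul_of_nonneg_left hGM (by positivity)
        _ ≤ δ₁ ^ 2 * (C * (C * max (|((w + a * d : ℤ) : ℝ)| ^ (a + b)) (|((x * y : ℤ) : ℝ)| ^ L))) := by
            apply mul_le_mul_of_nonneg_left _ (by positivity)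
            apply mul_le_mul hC2 _ (by positivity) (by linarith)
            exact h2.trans (mul_le_mul_of_nonneg_right hC3 (by positivity))
        _ = (δ₁ * (δ₁ * C ^ 2)) * max (|((w + a * d : ℤ) : ℝ)| ^ (a + b)) (|((x * y : ℤ) : ℝ)| ^ L) := by
            ring
        _ ≤ (1 * δ) * max (|((w + a * d : ℤ) : ℝ)| ^ (a + b)) (|((x * y : ℤ) : ℝ)| ^ L) := by
            apply mul_le_mul_of_nonneg_right _ (by positivity)
            exact mul_le_mul (by linarith) hδ₁2 (by positivity) zero_le_one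
        _ = _ := by rw [one_mul]
    · have h3 : (M / 2) ^ (a + b) ≤ |((w + a * d : ℤ) : ℝ)| ^ (a + b) := by
        push_cast
        exact pow_le_pow_left₀ (by positivity) hXlow _
      rw [div_pow, div_le_iff₀ (by positivity)] at h3
      calc M ^ (a + b) ≤ |((w + a * d : ℤ) : ℝ)| ^ (a + b) * 2 ^ (a + b) := h3
        _ ≤ max (|((w + a * d : ℤ) : ℝ)| ^ (a + b)) (|((x * y : ℤ) : ℝ)| ^ L) * C :=
            mul_le_mul (le_max_left _ _) hC3 (by positivity) (by positivity)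
        _ = _ := mul_comm _ _
    · rw [hmain]
      have h1 := phi_sq_mul hΦ hF0 hd0 hG0 hdF (fun ℓ hℓ h => by
        rw [hF] at h
        rcases hℓ.dvd_or_dvd h with h | h
        · exact h.trans (dvd_trans ⟨2 * (a * b), by ring⟩ hd2)
        · exact h)
      have hR0 : 0 < Φ (x ^ p - y ^ q).natAbs := hΦ.pos _ (Int.natAbs_ne_zero.2 hF0)
      calc Φ (d ^ 2 * G).natAbs * M ^ 2 ≤ (A * Φ (x ^ p - y ^ q).natAbs * |(G : ℝ)|) * M ^ 2 :=
            mul_le_mul_of_nonneg_right h1 (by positivity)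
        _ = A * Φ (x ^ p - y ^ q).natAbs * (|(G : ℝ)| * M ^ 2) := by ring
        _ ≤ A * Φ (x ^ p - y ^ q).natAbs * (2 * a ^ 2 * s ^ 2 * M ^ (a + b)) :=
            mul_le_mul_of_nonneg_left hGM (by positivity)
        _ = (A * (2 * a ^ 2 * s ^ 2)) * (Φ (x ^ p - y ^ q).natAbs * M ^ (a + b)) := by ring
        _ ≤ C * (Φ (x ^ p - y ^ q).natAbs * M ^ (a + b)) :=
            mul_le_mul_of_nonneg_right hC4 (by positivity)
        _ = _ := by ring

/-- **Second rule.** The inequality for `(p, q (p + 1))` implies that for `(p, q)`: with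
`x ^ p = y ^ q + p d` take `X = x (y ^ q - d)`, `Y = y`. -/
theorem oneCusp_mean' {Φ : ℕ → ℝ} {A₀ : ℝ} (hΦ : RadLike Φ A₀) (p q N : ℕ) (hp : 2 ≤ p) (hq : 2 ≤ q) (δ : ℝ) (hδ : 0 < δ)
    (h : OneCusp Φ p (q * (p + 1)) N δ) :
    ∃ δ₁ : ℝ, 0 < δ₁ ∧ OneCusp Φ p q (N * (p * (2 * ((1 + p) * 1 * p)))) δ₁ := by
  have hA₀ := hΦ.one_le
  have hA₀0 : 0 < A₀ := by linarith
  have hp1 : (2 : ℝ) ≤ p := by exact_mod_cast hp
  have hq1 : (2 : ℝ) ≤ q := by exact_mod_cast hq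
  obtain ⟨A, hA⟩ : ∃ A : ℝ, A = 2 * (1 + p) ^ 2 := ⟨_, rfl⟩
  have hA1 : 1 ≤ A := by rw [hA]; nlinarith
  obtain ⟨C₀, hC₀⟩ : ∃ C₀ : ℝ, C₀ = 2 ^ (1 + p) * A := ⟨_, rfl⟩
  have h2s : (1 : ℝ) ≤ 2 ^ (1 + p) := one_le_pow₀ (by norm_num)
  have hC₀1 : 1 ≤ C₀ := by rw [hC₀]; nlinarith
  have hC₀3 : (2 : ℝ) ^ (1 + p) ≤ C₀ := by rw [hC₀]; nlinarith
  obtain ⟨C, hC⟩ : ∃ C : ℝ, C = A₀ * C₀ := ⟨_, rfl⟩
  have hC₀C : C₀ ≤ C := by rw [hC]; nlinarith
  have hC1 : 1 ≤ C := by linarith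
  have hC3 : (2 : ℝ) ^ (1 + p) ≤ C := by linarith
  obtain ⟨δ₁, hδ₁⟩ : ∃ δ₁ : ℝ, δ₁ = min (1 / 2) (δ / C ^ 2) := ⟨_, rfl⟩
  have hδ₁0 : 0 < δ₁ := by rw [hδ₁]; exact lt_min (by positivity) (by positivity)
  have hδ₁1 : δ₁ ≤ 1 / 2 := by rw [hδ₁]; exact min_le_left _ _
  have hδ₁2 : δ₁ * C ^ 2 ≤ δ := by
    have : δ₁ ≤ δ / C ^ 2 := by rw [hδ₁]; exact min_le_right _ _
    rwa [le_div_iff₀ (by positivity)] at this
  refine ⟨δ₁, hδ₁0, ?_⟩
  refine oneCusp_transfer hΦ p q p (q * (p + 1)) _ N (1 + p) δ₁ δ C hC1 ?_ ?_ (by omega) h ?_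
  · have h1 : 1 / (p : ℝ) ≤ 1 / 2 := one_div_le_one_div_of_le (by norm_num) hp1
    have h2 : 1 / (((q * (p + 1) : ℕ) : ℝ)) ≤ 1 / 6 := by
      refine one_div_le_one_div_of_le (by norm_num) ?_
      push_cast
      nlinarith
    linarith
  · push_cast
    field_simp
    ring
  · intro x y hxy hne hdvd M hM1 hM hnear
    have hM0 : 0 < M := by linarith
    obtain ⟨W, hW⟩ : ∃ W : ℤ, W = y ^ q := ⟨_, rfl⟩
    obtain ⟨d₁, hd₁⟩ := hdvd
    obtain ⟨d, hd⟩ : ∃ d : ℤ, d = N * (2 * ((((1 : ℕ) : ℤ) + p) * ((1 : ℕ) : ℤ) * p)) * d₁ := ⟨_, rfl⟩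
    have hF : x ^ p - y ^ q = p * d := by rw [hd₁, hd]; push_cast; ring
    have hu : x ^ p = W + p * d := by rw [hW]; linarith
    have hd2 : (2 * ((((1 : ℕ) : ℤ) + p) * ((1 : ℕ) : ℤ) * p)) ∣ d := ⟨N * d₁, by rw [hd]; ring⟩
    have hdF : d ∣ x ^ p - y ^ q := by rw [hF]; exact Dvd.intro_left _ rfl
    have hF0 : x ^ p - y ^ q ≠ 0 := sub_ne_zero.2 hne
    have huW : IsCoprime (x ^ p) W := by rw [hW]; exact hxy.pow
    have hWd : IsCoprime W d := by
      have h1 : IsCoprime W (p * d) := by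
        have h2 := huW.symm
        rw [hu] at h2
        have h3 := h2.add_mul_left_right (-1)
        rwa [show W + ↑p * d + W * -1 = ↑p * d by ring] at h3
      exact h1.of_mul_right_right
    obtain ⟨G, hG⟩ : ∃ G : ℤ, G = GG 1 p (W - d) d := ⟨_, rfl⟩
    have hwd : IsCoprime (W - d) d := by
      have := hWd.add_mul_left_left (-1)
      rwa [show W + d * -1 = W - d by ring] at this
    have hG0 : G ≠ 0 := by rw [hG]; exact GG_ne_zero le_rfl (by omega) hwd hd2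
    have hd0 : d ≠ 0 := by
      intro h0
      rw [h0, mul_zero] at hF
      exact hF0 hF
    have hmain : (x * (W - d)) ^ p - y ^ (q * (p + 1)) = d ^ 2 * (-G) := by
      have h1 := GG_spec 1 p le_rfl (W - d) d
      rw [← hG] at h1
      have h2 : (x * (W - d)) ^ p = (W + p * d) * (W - d) ^ p := by rw [mul_pow, hu]
      have h3 : y ^ (q * (p + 1)) = W ^ (1 + p) := by rw [hW, ← pow_mul, add_comm]
      rw [h2, h3]
      push_cast at h1
      have e1 : W - d + 1 * d = W := by ring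
      have e2 : W - d + (1 + (p : ℤ)) * d = W + p * d := by ring
      rw [e1, e2, pow_one] at h1
      linear_combination -h1
    -- sizes
    have hWM : |(W : ℝ)| ≤ M := by
      rw [hW, hM]; push_cast; rw [abs_pow]; exact le_max_right _ _
    have huM : |(W : ℝ) + p * d| ≤ M := by
      have : (W : ℝ) + p * d = x ^ p := by exact_mod_cast hu.symm
      rw [this, hM, abs_pow]; exact le_max_left _ _
    have hpd : p * |(d : ℝ)| ≤ δ₁ * M := by
      have h1 : (x : ℝ) ^ p - (y : ℝ) ^ q = p * d := by exact_mod_cast hF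
      rw [h1, abs_mul, abs_of_pos (by linarith)] at hnear
      exact hnear
    have hdM : |(d : ℝ)| ≤ δ₁ * M := by
      have : 1 * |(d : ℝ)| ≤ p * |(d : ℝ)| := mul_le_mul_of_nonneg_right (by linarith) (abs_nonneg _)
      linarith
    have hδM : δ₁ * M ≤ M / 2 := by
      have := mul_le_mul_of_nonneg_right hδ₁1 hM0.le
      linarith
    have hWdM : |(W : ℝ) - d| ≤ 2 * M := by
      calc |(W : ℝ) - d| ≤ |(W : ℝ)| + |(d : ℝ)| := by
            have := abs_add_le (W : ℝ) (-d)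
            rwa [abs_neg, ← sub_eq_add_neg] at this
        _ ≤ _ := by linarith
    have hWlow : M / 2 ≤ |(W : ℝ)| := by
      rcases max_cases (|(x : ℝ)| ^ p) (|(y : ℝ)| ^ q) with ⟨h1, -⟩ | ⟨h1, -⟩
      · have h2 : M = |(W : ℝ) + p * d| := by
          rw [hM, h1, ← abs_pow]
          congr 1
          exact_mod_cast hu
        have h4 := abs_sub_abs_le_abs_sub ((W : ℝ) + p * d) (p * d)
        rw [← h2, abs_mul, abs_of_pos (by linarith : (0 : ℝ) < p), add_sub_cancel_right] at h4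
        linarith
      · have h2 : M = |(W : ℝ)| := by
          rw [hM, h1, ← abs_pow]
          congr 1
          exact_mod_cast hW.symm
        linarith
    have hGM₀ : |(G : ℝ)| * M ^ 2 ≤ C₀ * M ^ (1 + p) := by
      have hint : ∃ Mi : ℤ, (Mi : ℝ) = 2 * M := by
        rcases max_cases (|(x : ℝ)| ^ p) (|(y : ℝ)| ^ q) with ⟨h1, -⟩ | ⟨h1, -⟩
        · exact ⟨2 * |x| ^ p, by rw [hM, h1]; push_cast; rfl⟩
        · exact ⟨2 * |y| ^ q, by rw [hM, h1]; push_cast; rfl⟩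
      obtain ⟨Mi, hMi⟩ := hint
      have h1 := GG_bound 1 p (W - d) d Mi
        (by rw [← hMi] at hWdM; exact_mod_cast hWdM)
        (by
          have h2 : |(W : ℝ)| ≤ 2 * M := by linarith
          rw [← hMi] at h2
          have e : W - d + ((1 : ℕ) : ℤ) * d = W := by push_cast; ring
          rw [e]
          exact_mod_cast h2)
        (by
          have h2 : |(W : ℝ) + p * d| ≤ 2 * M := by linarith
          rw [← hMi] at h2
          have e : W - d + (((1 : ℕ) : ℤ) + p) * d = W + p * d := by push_cast; ring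
          rw [e]
          exact_mod_cast h2)
      rw [← hG] at h1
      have h2 : |(G : ℝ)| * (2 * M) ^ 2 ≤ A * (2 * M) ^ (1 + p) := by
        rw [← hMi, hA]
        have h3 : |(G : ℝ)| * (Mi : ℝ) ^ 2 ≤ 2 * ((1 : ℕ) : ℝ) ^ 2 * (((1 : ℕ) : ℝ) + p) ^ 2 *
            (Mi : ℝ) ^ (1 + p) := by exact_mod_cast h1
        push_cast at h3
        linarith
      have h4 : 0 ≤ |(G : ℝ)| * M ^ 2 := by positivity
      calc |(G : ℝ)| * M ^ 2 ≤ |(G : ℝ)| * (2 * M) ^ 2 := by rw [mul_pow]; nlinarith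
        _ ≤ A * (2 * M) ^ (1 + p) := h2
        _ = _ := by rw [hC₀, mul_pow]; ring
    have hGM : |(G : ℝ)| * M ^ 2 ≤ C * M ^ (1 + p) :=
      hGM₀.trans (mul_le_mul_of_nonneg_right hC₀C (by positivity))
    have hMlow : M ^ (1 + p) ≤ 2 ^ (1 + p) * max (|((x * (W - d) : ℤ) : ℝ)| ^ p)
        (|(y : ℝ)| ^ (q * (p + 1))) := by
      have h3 : (M / 2) ^ (1 + p) ≤ |(y : ℝ)| ^ (q * (p + 1)) := by
        have e : |(y : ℝ)| ^ (q * (p + 1)) = |(W : ℝ)| ^ (1 + p) := by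
          rw [hW, pow_mul, add_comm]; push_cast; rw [abs_pow]
        rw [e]
        exact pow_le_pow_left₀ (by positivity) hWlow _
      rw [div_pow, div_le_iff₀ (by positivity)] at h3
      calc M ^ (1 + p) ≤ |(y : ℝ)| ^ (q * (p + 1)) * 2 ^ (1 + p) := h3
        _ ≤ _ := by rw [mul_comm]; exact mul_le_mul_of_nonneg_left (le_max_right _ _) (by positivity)
    refine ⟨x * (W - d), y, ?_, ?_, ?_, ?_, ?_, ?_⟩
    · have h2 : IsCoprime (W - d) y := by
        have h3 : IsCoprime (-d + W * 1) W := (hWd.symm.neg_left.add_mul_left_left 1)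
        rw [mul_one, show -d + W = W - d by ring] at h3
        nth_rewrite 2 [hW] at h3
        exact (IsCoprime.pow_right_iff (by omega)).1 h3
      exact hxy.mul_left h2
    · intro h1
      rw [h1, sub_self] at hmain
      exact mul_ne_zero (pow_ne_zero 2 hd0) (neg_ne_zero.2 hG0) hmain.symm
    · rw [hmain]
      have h1 : (N : ℤ) ∣ d := ⟨2 * ((((1 : ℕ) : ℤ) + p) * ((1 : ℕ) : ℤ) * p) * d₁, by rw [hd]; ring⟩
      exact (h1.trans (dvd_pow_self d (by norm_num))).mul_right _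
    · have h1 : ((x * (W - d) : ℤ) : ℝ) ^ p - (y : ℝ) ^ (q * (p + 1)) = d ^ 2 * (-G) := by
        exact_mod_cast hmain
      rw [h1, abs_mul, abs_pow, abs_neg]
      obtain ⟨M', hM'⟩ : ∃ M' : ℝ, M' = max (|((x * (W - d) : ℤ) : ℝ)| ^ p)
        (|(y : ℝ)| ^ (q * (p + 1))) := ⟨_, rfl⟩
      rw [← hM'] at hMlow ⊢
      have hM'0 : 0 ≤ M' := by rw [hM']; positivity
      calc |(d : ℝ)| ^ 2 * |(G : ℝ)| ≤ (δ₁ * M) ^ 2 * |(G : ℝ)| :=
            mul_le_mul_of_nonneg_right (pow_le_pow_left₀ (abs_nonneg _) hdM 2) (abs_nonneg _)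
        _ = δ₁ ^ 2 * (|(G : ℝ)| * M ^ 2) := by ring
        _ ≤ δ₁ ^ 2 * (C * M ^ (1 + p)) := mul_le_mul_of_nonneg_left hGM (by positivity)
        _ ≤ δ₁ ^ 2 * (C * (C * M')) := by
            apply mul_le_mul_of_nonneg_left _ (by positivity)
            apply mul_le_mul_of_nonneg_left _ (by linarith)
            exact hMlow.trans (mul_le_mul_of_nonneg_right hC3 hM'0)
        _ = (δ₁ * (δ₁ * C ^ 2)) * M' := by ring
        _ ≤ (1 * δ) * M' := by
            apply mul_le_mul_of_nonneg_right _ hM'0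
            exact mul_le_mul (by linarith) hδ₁2 (by positivity) zero_le_one
        _ = _ := by rw [one_mul]
    · exact hMlow.trans (mul_le_mul_of_nonneg_right hC3 (by positivity))
    · rw [hmain]
      have h1 := phi_sq_mul hΦ hF0 hd0 (neg_ne_zero.2 hG0) hdF (fun ℓ hℓ h => by
        rw [hF] at h
        rcases hℓ.dvd_or_dvd h with h | h
        · exact h.trans (dvd_trans ⟨2 * (1 + p), by push_cast; ring⟩ hd2)
        · exact h)
      push_cast at h1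
      rw [abs_neg] at h1
      have hR0 : 0 < Φ (x ^ p - y ^ q).natAbs := hΦ.pos _ (Int.natAbs_ne_zero.2 hF0)
      calc Φ (d ^ 2 * (-G)).natAbs * M ^ 2 ≤ (A₀ * Φ (x ^ p - y ^ q).natAbs * |(G : ℝ)|) * M ^ 2 :=
            mul_le_mul_of_nonneg_right h1 (by positivity)
        _ = A₀ * Φ (x ^ p - y ^ q).natAbs * (|(G : ℝ)| * M ^ 2) := by ring
        _ ≤ A₀ * Φ (x ^ p - y ^ q).natAbs * (C₀ * M ^ (1 + p)) :=
            mul_le_mul_of_nonneg_left hGM₀ (by positivity)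
        _ = _ := by rw [hC]; ring

end Pool.Agent.N757.OH
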