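import Mathlib
import Pool.Agent.N757.OH.Mean
import Pool.Agent.N757.OH.Tors2

/-!
# The function `H (n) = γ (n) / (log γ (n)) ^ ω (n)`, and the signatures
-/

set_option autoImplicit false

namespace Pool.Agent.N757.OH

/-- `γ(n)`, the product of the primes dividing `n` -/
def gam (n : ℕ) : ℕ := ∏ p ∈ n.primeFactors, p

/-- `ω(n)`, the number of primes dividing `n` -/
def om (n : ℕ) : ℕ := n.primeFactors.card

/-- `H(n) = γ(n) / (log γ(n)) ^ ω(n)` -/
noncomputable def H (n : ℕ) : ℝ := (gam n : ℝ) / Real.log (gam n : ℝ) ^ om n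

theorem gam_pos (n : ℕ) : 1 ≤ gam n :=
  Finset.prod_pos fun _ hr => (Nat.prime_of_mem_primeFactors hr).pos

theorem primeFactors_gam (n : ℕ) : (gam n).primeFactors = n.primeFactors :=
  Nat.primeFactors_prod fun _ hp => Nat.prime_of_mem_primeFactors hp

/-- `H` depends on `γ` only -/
theorem om_eq (n : ℕ) : om n = (gam n).primeFactors.card := by
  rw [primeFactors_gam]; rfl

theorem om_of_one {n : ℕ} (h : gam n = 1) : om n = 0 := by
  rw [om_eq, h]; simp

theorem om_of_two {n : ℕ} (h : gam n = 2) : om n = 1 := by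
  rw [om_eq, h, Nat.prime_two.primeFactors]; simp

theorem H_of_one {n : ℕ} (h : gam n = 1) : H n = 1 := by
  rw [H, om_of_one h, h]; simp

theorem H_of_two {n : ℕ} (h : gam n = 2) : H n = 2 / Real.log 2 := by
  rw [H, om_of_two h, h]; simp

theorem one_lt_log_three : (1 : ℝ) < Real.log 3 := by
  rw [Real.lt_log_iff_exp_lt (by norm_num)]
  exact Real.exp_one_lt_three

theorem log_ge {n : ℕ} (h : 3 ≤ gam n) : 1 < Real.log (gam n : ℝ) := by
  have h1 : (3 : ℝ) ≤ gam n := by exact_mod_cast h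
  exact one_lt_log_three.trans_le (Real.log_le_log (by norm_num) h1)

theorem H_le {n : ℕ} (h : 3 ≤ gam n) : H n ≤ gam n := by
  have h1 := log_ge h
  have h2 : (1 : ℝ) ≤ Real.log (gam n : ℝ) ^ om n := one_le_pow₀ h1.le
  rw [H]
  exact div_le_self (Nat.cast_nonneg _) h2

theorem log_two_pos : 0 < Real.log 2 := Real.log_pos (by norm_num)

theorem log_two_le : Real.log 2 ≤ 1 := by
  have := Real.log_two_lt_d9
  linarith

theorem H_pos (n : ℕ) : 0 < H n := by
  have h1 := gam_pos n
  rcases (by omega : gam n = 1 ∨ gam n = 2 ∨ 3 ≤ gam n) with h | h | h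
  · rw [H_of_one h]; exact one_pos
  · rw [H_of_two h]
    exact div_pos two_pos log_two_pos
  · have h2 := log_ge h
    have h3 : (0 : ℝ) < gam n := by exact_mod_cast h1
    rw [H]
    exact div_pos h3 (pow_pos (by linarith) _)

/-- `H` behaves like the radical -/
theorem radLike_H : RadLike H 3 := by
  refine ⟨by norm_num, fun n _ => H_pos n, ?_⟩
  intro n m w hn hm hw h1 h2
  have hsub : n.primeFactors ⊆ m.primeFactors := by
    intro p hp
    rw [Nat.mem_primeFactors] at hp ⊢
    exact ⟨hp.1, h1 p hp.1 hp.2.1, hm⟩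
  have hdvd : gam n ∣ gam m := Finset.prod_dvd_prod_of_subset _ _ _ hsub
  have hle : gam n ≤ gam m := Nat.le_of_dvd (gam_pos m) hdvd
  have hom : om n ≤ om m := Finset.card_le_card hsub
  have hmw : gam m ≤ gam n * w := by
    have h3 : gam m ∣ gam n * gam w := by
      have h4 : m.primeFactors ⊆ n.primeFactors ∪ w.primeFactors := by
        intro p hp
        rw [Nat.mem_primeFactors] at hp
        rw [Finset.mem_union, Nat.mem_primeFactors, Nat.mem_primeFactors]
        rcases (Nat.Prime.dvd_mul hp.1).1 (h2 p hp.1 hp.2.1) with h | h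
        · exact Or.inl ⟨hp.1, h, hn⟩
        · exact Or.inr ⟨hp.1, h, hw⟩
      refine (Finset.prod_dvd_prod_of_subset _ _ (fun p => p) h4).trans ?_
      rw [gam, gam, ← Finset.prod_union_inter (s₁ := n.primeFactors) (s₂ := w.primeFactors)]
      exact Dvd.intro _ rfl
    have h5 : gam w ≤ w := Nat.le_of_dvd (by omega) (Nat.prod_primeFactors_dvd w)
    calc gam m ≤ gam n * gam w := Nat.le_of_dvd (Nat.mul_pos (gam_pos n) (gam_pos w)) h3
      _ ≤ gam n * w := Nat.mul_le_mul_left _ h5
  have hw1 : (1 : ℝ) ≤ w := by exact_mod_cast (by omega : 1 ≤ w)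
  have hmwR : (gam m : ℝ) ≤ gam n * w := by exact_mod_cast hmw
  have hn0 := gam_pos n
  have hHn := H_pos n
  have htriv : H n ≤ 3 * H n * w := by nlinarith
  rcases (by omega : 3 ≤ gam n ∨ gam n = 2 ∨ gam n = 1) with h | h | h
  · -- `γ(n) ≥ 3`
    have h3 := log_ge h
    have h4 : Real.log (gam n : ℝ) ≤ Real.log (gam m : ℝ) :=
      Real.log_le_log (by exact_mod_cast hn0) (by exact_mod_cast hle)
    have h5 : Real.log (gam n : ℝ) ^ om n ≤ Real.log (gam m : ℝ) ^ om m := by
      calc Real.log (gam n : ℝ) ^ om n ≤ Real.log (gam n : ℝ) ^ om m :=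
            pow_le_pow_right₀ h3.le hom
        _ ≤ _ := pow_le_pow_left₀ (by linarith) h4 _
    have h6 : (0 : ℝ) < Real.log (gam n : ℝ) ^ om n := pow_pos (by linarith) _
    have h7 : H m ≤ H n * w := by
      calc H m = (gam m : ℝ) / Real.log (gam m : ℝ) ^ om m := rfl
        _ ≤ (gam n * w) / Real.log (gam n : ℝ) ^ om n :=
            div_le_div₀ (by positivity) hmwR h6 h5
        _ = H n * w := by rw [H]; ring
    nlinarith
  · -- `γ(n) = 2`
    have h3 : (2 : ℝ) ≤ H n := by
      rw [H_of_two h, le_div_iff₀ log_two_pos]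
      nlinarith [log_two_le]
    rcases (by omega : 3 ≤ gam m ∨ gam m = 2) with h4 | h4
    · have h5 := H_le h4
      have h6 : (gam n : ℝ) = 2 := by exact_mod_cast h
      rw [h6] at hmwR
      nlinarith
    · rw [H_of_two h4, ← H_of_two h]
      exact htriv
  · -- `γ(n) = 1`
    have h3 : H n = 1 := H_of_one h
    have h6 : (gam n : ℝ) = 1 := by exact_mod_cast h
    rw [h6, one_mul] at hmwR
    rcases (by have := gam_pos m; omega : 3 ≤ gam m ∨ gam m = 2 ∨ gam m = 1) with h4 | h4 | h4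
    · have h5 := H_le h4
      rw [h3]
      linarith
    · rw [H_of_two h4, h3, div_le_iff₀ log_two_pos]
      have h5 := Real.log_two_gt_d9
      nlinarith
    · rw [H_of_one h4, ← h3]
      exact htriv

/-- the signatures: the smallest set of pairs which contains `(k, 2)` for all `k ≥ 3`, `(3, 3)` and
`(4, 4)`, is closed under exchanging the two numbers and under common multiples, and contains with
`(p, q)` the pair `(a + b, p a)` for all `a, b ≥ 1` with `p a = q b`, and the pair `(p, q (p + 1))` -/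
inductive Signature : ℕ → ℕ → Prop
  | square (k : ℕ) : 3 ≤ k → Signature k 2
  | cubes : Signature 3 3
  | fourth : Signature 4 4
  | swap {p q : ℕ} : Signature p q → Signature q p
  | multiple {p q : ℕ} (m : ℕ) : 1 ≤ m → Signature p q → Signature (p * m) (q * m)
  | mean {p q : ℕ} (a b : ℕ) : 1 ≤ a → 1 ≤ b → p * a = q * b → Signature p q →
      Signature (a + b) (p * a)
  | mean' {p q : ℕ} : Signature p q → Signature p (q * (p + 1))

theorem sig_pos {p q : ℕ} (h : Signature p q) : 2 ≤ p ∧ 2 ≤ q ∧ 5 ≤ p + q := by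
  induction h with
  | square k hk => omega
  | cubes => omega
  | fourth => omega
  | swap _ ih => omega
  | @multiple p q m hm _ ih =>
    obtain ⟨h1, h2, h3⟩ := ih
    have h4 : p * 1 ≤ p * m := Nat.mul_le_mul_left p hm
    have h5 : q * 1 ≤ q * m := Nat.mul_le_mul_left q hm
    omega
  | @mean p q a b ha hb hab _ ih =>
    obtain ⟨h1, h2, h3⟩ := ih
    have h4 : 2 * 1 ≤ p * a := Nat.mul_le_mul h1 ha
    refine ⟨by omega, by omega, ?_⟩
    rcases Nat.lt_or_ge (a + b) 3 with h5 | h5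
    · have ha1 : a = 1 := by omega
      have hb1 : b = 1 := by omega
      subst ha1 hb1
      omega
    · omega
  | @mean' p q _ ih =>
    obtain ⟨h1, h2, h3⟩ := ih
    have h4 : q * 1 ≤ q * (p + 1) := Nat.mul_le_mul_left q (by omega)
    omega

/-- `x` and `y` exchanged -/
theorem swap (Φ : ℕ → ℝ) (p q N : ℕ) (δ : ℝ) (h : OneCusp Φ p q N δ) : OneCusp Φ q p N δ := by
  intro ε hε
  obtain ⟨κ, hκ0, hκ⟩ := h ε hε
  refine ⟨κ, hκ0, fun x y hxy hne hN hclose => ?_⟩
  have h1 := hκ y x hxy.symm hne.symm (by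
    have := hN.neg_right
    rwa [neg_sub] at this) (by rw [abs_sub_comm, max_comm]; exact hclose)
  rw [max_comm, show (y ^ p - x ^ q : ℤ) = -(x ^ q - y ^ p) by ring, Int.natAbs_neg] at h1
  rw [show 1 - 1 / (q : ℝ) - 1 / (p : ℝ) - ε = 1 - 1 / (p : ℝ) - 1 / (q : ℝ) - ε by ring]
  exact h1

theorem converse {Φ : ℕ → ℝ} {A : ℝ} (hΦ : RadLike Φ A) {p q : ℕ} (hpq : Signature p q) :
    ∀ N : ℕ, 1 ≤ N → ∀ δ : ℝ, 0 < δ → OneCusp Φ p q N δ → ABC Φ := by
  induction hpq with
  | square k hk => exact fun N hN δ hδ h => oneCusp_two_abc hΦ k hk N hN δ hδ h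
  | cubes => exact fun N hN δ hδ h => oneCusp_cubes_abc hΦ N hN δ hδ h
  | fourth => exact fun N hN δ hδ h => oneCusp_fourth_abc hΦ N hN δ hδ h
  | @swap p q _ ih => exact fun N hN δ hδ h => ih N hN δ hδ (swap Φ q p N δ h)
  | @multiple p q m hm hs ih =>
    intro N hN δ hδ h
    obtain ⟨h1, h2, -⟩ := sig_pos hs
    have hm0 : (0 : ℝ) < m := by exact_mod_cast hm
    exact ih N hN (δ / m) (by positivity) (oneCusp_mul hΦ m p q N hm (by omega) (by omega) δ hδ h)
  | @mean p q a b ha hb hab hs ih =>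
    intro N hN δ hδ h
    obtain ⟨h1, h2, -⟩ := sig_pos hs
    obtain ⟨h3, h4, h5⟩ := sig_pos (Signature.mean a b ha hb hab hs)
    have hL : 3 ≤ p * a := by
      by_contra hcon
      have h6 : p * a = 2 := by omega
      have h7 : a = 1 := by nlinarith
      have h8 : b = 1 := by nlinarith
      omega
    obtain ⟨δ₁, hδ₁, h6⟩ := oneCusp_mean hΦ a b p q (p * a) N ha hb (by omega) (by omega) rfl
      hab.symm hL δ hδ h
    exact ih _ (Nat.mul_pos (by omega) (by positivity)) δ₁ hδ₁ h6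
  | @mean' p q hs ih =>
    intro N hN δ hδ h
    obtain ⟨h1, h2, -⟩ := sig_pos hs
    obtain ⟨δ₁, hδ₁, h6⟩ := oneCusp_mean' hΦ p q N h1 h2 δ hδ h
    exact ih _ (Nat.mul_pos (by omega) (by positivity)) δ₁ hδ₁ h6

end Pool.Agent.N757.OH
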